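import Mathlib

/-!
# Combinations of double zeta values of the same weight as sums over pairs
-/

set_option autoImplicit false

namespace Pool.Agent.D0H51.DZ

open Finset

/-- the double zeta value `ζ(p, q)`, the sum of `m ^ (-p) n ^ (-q)` over `m > n ≥ 1` -/
noncomputable def dz (p q : ℕ) : ℝ :=
  ∑' m : ℕ, (∑ n ∈ Finset.Ico 1 (m + 1), 1 / (n : ℝ) ^ q) / ((m + 1 : ℕ) : ℝ) ^ p

/-- the value at `x` of the polynomial with the coefficients `c i`, `i ≤ W` -/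
noncomputable def pv (W : ℕ) (c : ℕ → ℤ) (x : ℝ) : ℝ := ∑ i ∈ range (W + 1), (c i : ℝ) * x ^ i

/-- the contribution of the pair `x = (m, n)` -/
noncomputable def tm (p q W : ℕ) (c : ℕ → ℤ) (x : ℕ × ℕ) : ℝ :=
  pv W c ((x.2 : ℝ) / x.1) / ((x.1 : ℝ) ^ p * (x.2 : ℝ) ^ q)

/-- the pairs `(m, n)` with `1 ≤ n < m ≤ M` -/
def TT (M : ℕ) : Finset (ℕ × ℕ) :=
  (range (M + 1) ×ˢ range (M + 1)).filter fun x => 1 ≤ x.2 ∧ x.2 < x.1

lemma mem_TT {M : ℕ} {x : ℕ × ℕ} : x ∈ TT M ↔ 1 ≤ x.2 ∧ x.2 < x.1 ∧ x.1 ≤ M := by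
  unfold TT
  rw [mem_filter, mem_product, mem_range, mem_range]
  constructor
  · rintro ⟨⟨h1, h2⟩, h3, h4⟩
    omega
  · rintro ⟨h1, h2, h3⟩
    omega

lemma card_TT (M : ℕ) : (TT M).card ≤ (M + 1) ^ 2 := by
  unfold TT
  refine (card_filter_le _ _).trans ?_
  rw [card_product, card_range, sq]

lemma pv_le {W : ℕ} {c : ℕ → ℤ} {B : ℝ} (hc : ∀ i ≤ W, |(c i : ℝ)| ≤ B) {x : ℝ} (h0 : 0 ≤ x)
    (h1 : x ≤ 1) : |pv W c x| ≤ B * (W + 1) := by
  unfold pv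
  refine (abs_sum_le_sum_abs _ _).trans ?_
  have h2 : ∀ i ∈ range (W + 1), |(c i : ℝ) * x ^ i| ≤ B := by
    intro i hi
    rw [mem_range] at hi
    rw [abs_mul]
    have h3 : |x ^ i| ≤ 1 := by
      rw [abs_of_nonneg (pow_nonneg h0 _)]
      exact pow_le_one₀ h0 h1
    have h4 := hc i (by omega)
    calc |(c i : ℝ)| * |x ^ i| ≤ |(c i : ℝ)| * 1 := by gcongr
      _ ≤ B := by rw [mul_one]; exact h4
  refine (sum_le_sum h2).trans (le_of_eq ?_)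
  rw [sum_const, card_range, nsmul_eq_mul]
  push_cast
  ring

/-- the part of the series with first variable `m + 1` -/
noncomputable def Fm (p q W : ℕ) (c : ℕ → ℤ) (m : ℕ) : ℝ :=
  ∑ n ∈ Ico 1 (m + 1), tm p q W c (m + 1, n)

lemma Fm_eq {p q W : ℕ} (hW : W ≤ q) (c : ℕ → ℤ) (m : ℕ) :
    Fm p q W c m = ∑ i ∈ range (W + 1), (c i : ℝ) *
      ((∑ n ∈ Ico 1 (m + 1), 1 / (n : ℝ) ^ (q - i)) / ((m + 1 : ℕ) : ℝ) ^ (p + i)) := by
  unfold Fm tm pv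
  simp_rw [sum_div, mul_sum]
  rw [sum_comm]
  refine sum_congr rfl fun i hi => sum_congr rfl fun n hn => ?_
  rw [mem_range] at hi
  rw [mem_Ico] at hn
  have hn0 : (n : ℝ) ≠ 0 := by
    have : n ≠ 0 := by omega
    exact_mod_cast this
  have hm0 : ((m + 1 : ℕ) : ℝ) ≠ 0 := by positivity
  have h1 : (n : ℝ) ^ q = (n : ℝ) ^ (q - i) * (n : ℝ) ^ i := by
    rw [← pow_add]
    congr 1
    omega
  rw [h1, pow_add, div_pow]
  field_simp

lemma abs_tm_le {p q W : ℕ} {c : ℕ → ℤ} {B : ℝ} (hc : ∀ i ≤ W, |(c i : ℝ)| ≤ B) {x : ℕ × ℕ}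
    (h1 : 1 ≤ x.2) (h2 : x.2 < x.1) :
    |tm p q W c x| ≤ B * (W + 1) / ((x.1 : ℝ) ^ p * (x.2 : ℝ) ^ q) := by
  unfold tm
  rw [abs_div]
  have h3 : (0 : ℝ) < x.1 := by
    have : 0 < x.1 := by omega
    exact_mod_cast this
  have h4 : (0 : ℝ) < x.2 := by exact_mod_cast h1
  have h5 : 0 < (x.1 : ℝ) ^ p * (x.2 : ℝ) ^ q := by positivity
  rw [abs_of_pos h5]
  gcongr
  refine pv_le hc (by positivity) ?_
  rw [div_le_one h3]
  exact_mod_cast h2.le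

lemma abs_Fm_le {p q W : ℕ} {c : ℕ → ℤ} {B : ℝ} (hc : ∀ i ≤ W, |(c i : ℝ)| ≤ B) (m : ℕ) :
    |Fm p q W c m| ≤ B * (W + 1) * (((m + 1 : ℕ) : ℝ) / ((m + 1 : ℕ) : ℝ) ^ p) := by
  have hB : 0 ≤ B := (abs_nonneg _).trans (hc 0 (Nat.zero_le _))
  unfold Fm
  refine (abs_sum_le_sum_abs _ _).trans ?_
  have h1 : ∀ n ∈ Ico 1 (m + 1), |tm p q W c (m + 1, n)| ≤
      B * (W + 1) / ((m + 1 : ℕ) : ℝ) ^ p := by
    intro n hn
    rw [mem_Ico] at hn
    refine (abs_tm_le hc (x := (m + 1, n)) hn.1 hn.2).trans ?_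
    have h2 : (1 : ℝ) ≤ (n : ℝ) ^ q := one_le_pow₀ (by exact_mod_cast hn.1)
    have h3 : (0 : ℝ) < ((m + 1 : ℕ) : ℝ) ^ p := by positivity
    apply div_le_div_of_nonneg_left (by positivity) h3
    exact le_mul_of_one_le_right h3.le h2
  refine (sum_le_sum h1).trans ?_
  rw [sum_const, Nat.card_Ico, nsmul_eq_mul, Nat.add_sub_cancel]
  have h4 : (m : ℝ) ≤ ((m + 1 : ℕ) : ℝ) := by push_cast; linarith
  calc (m : ℝ) * (B * (W + 1) / ((m + 1 : ℕ) : ℝ) ^ p)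
      ≤ ((m + 1 : ℕ) : ℝ) * (B * (W + 1) / ((m + 1 : ℕ) : ℝ) ^ p) := by gcongr
    _ = _ := by ring

/-- a power comparison -/
lemma pow_comp {p : ℕ} (hp : 3 ≤ p) (m M : ℕ) :
    ((m + M + 1 : ℕ) : ℝ) / ((m + M + 1 : ℕ) : ℝ) ^ p ≤
      ((M : ℝ) + 1) ^ 3 / ((M : ℝ) + 1) ^ p * (1 / ((m : ℝ) + 1) ^ 2) := by
  obtain ⟨r, rfl⟩ := Nat.exists_eq_add_of_le hp
  set y : ℝ := ((m + M + 1 : ℕ) : ℝ) with hy
  have hy1 : (m : ℝ) + 1 ≤ y := by rw [hy]; push_cast; linarith [Nat.cast_nonneg (α := ℝ) M]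
  have hy2 : (M : ℝ) + 1 ≤ y := by rw [hy]; push_cast; linarith [Nat.cast_nonneg (α := ℝ) m]
  have hM : (0 : ℝ) < (M : ℝ) + 1 := by positivity
  have hm : (0 : ℝ) < (m : ℝ) + 1 := by positivity
  have hy0 : 0 < y := by linarith
  have e1 : y / y ^ (3 + r) = 1 / (y ^ 2 * y ^ r) := by
    rw [pow_add]; field_simp
  have e2 : ((M : ℝ) + 1) ^ 3 / ((M : ℝ) + 1) ^ (3 + r) * (1 / ((m : ℝ) + 1) ^ 2) =
      1 / (((m : ℝ) + 1) ^ 2 * ((M : ℝ) + 1) ^ r) := by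
    rw [pow_add]; field_simp
  rw [e1, e2]
  apply one_div_le_one_div_of_le (by positivity)
  gcongr

lemma summable_sq : Summable fun m : ℕ => 1 / ((m : ℝ) + 1) ^ 2 := by
  have h := (summable_nat_add_iff 1).2 (Real.summable_one_div_nat_pow.2 (by norm_num : 1 < 2))
  simpa using h

lemma tsum_sq_le : ∑' m : ℕ, 1 / ((m : ℝ) + 1) ^ 2 ≤ 2 := by
  have h := hasSum_zeta_two
  have h1 := h.summable.tsum_eq_zero_add
  rw [h.tsum_eq] at h1
  have h2 : ∑' m : ℕ, 1 / ((m : ℝ) + 1) ^ 2 = ∑' b : ℕ, 1 / ((b + 1 : ℕ) : ℝ) ^ 2 := by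
    push_cast
    rfl
  rw [h2]
  have h3 : ∑' b : ℕ, 1 / ((b + 1 : ℕ) : ℝ) ^ 2 = Real.pi ^ 2 / 6 := by
    rw [h1]
    simp
  rw [h3]
  have h4 := Real.pi_lt_d2
  have h5 := Real.pi_pos
  nlinarith

lemma summable_comp {p : ℕ} (hp : 3 ≤ p) :
    Summable fun m : ℕ => ((m + 1 : ℕ) : ℝ) / ((m + 1 : ℕ) : ℝ) ^ p := by
  refine Summable.of_nonneg_of_le (fun m => by positivity) (fun m => ?_) summable_sq
  have h := pow_comp hp m 0
  simpa using h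

lemma summable_Fm {p q W : ℕ} (hp : 3 ≤ p) {c : ℕ → ℤ} {B : ℝ}
    (hc : ∀ i ≤ W, |(c i : ℝ)| ≤ B) : Summable (Fm p q W c) := by
  refine Summable.of_norm_bounded ((summable_comp hp).mul_left (B * (W + 1))) fun m => ?_
  rw [Real.norm_eq_abs]
  exact abs_Fm_le hc m

lemma summable_dz {p q : ℕ} (hp : 3 ≤ p) :
    Summable fun m : ℕ => (∑ n ∈ Ico 1 (m + 1), 1 / (n : ℝ) ^ q) / ((m + 1 : ℕ) : ℝ) ^ p := by
  refine Summable.of_nonneg_of_le (fun m => by positivity) (fun m => ?_) (summable_comp hp)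
  gcongr
  calc ∑ n ∈ Ico 1 (m + 1), 1 / (n : ℝ) ^ q ≤ ∑ n ∈ Ico 1 (m + 1), (1 : ℝ) := by
        refine sum_le_sum fun n hn => ?_
        rw [mem_Ico] at hn
        rw [div_le_one (by have : (0 : ℝ) < n := by exact_mod_cast hn.1
                           positivity)]
        exact one_le_pow₀ (by exact_mod_cast hn.1)
    _ ≤ ((m + 1 : ℕ) : ℝ) := by
        rw [sum_const, Nat.card_Ico, nsmul_eq_mul, mul_one, Nat.add_sub_cancel]
        push_cast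
        linarith

/-- the combination of double zeta values as a series -/
lemma comb_eq {p q W : ℕ} (hp : 3 ≤ p) (hW : W ≤ q) (c : ℕ → ℤ) :
    ∑ i ∈ range (W + 1), (c i : ℝ) * dz (p + i) (q - i) = ∑' m, Fm p q W c m := by
  unfold dz
  simp_rw [← tsum_mul_left]
  rw [← Summable.tsum_finsetSum]
  · refine tsum_congr fun m => ?_
    rw [Fm_eq hW]
  · intro i _
    exact (summable_dz (by omega)).mul_left _

lemma sum_Fm (p q W : ℕ) (c : ℕ → ℤ) (M : ℕ) :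
    ∑ m ∈ range M, Fm p q W c m = ∑ x ∈ TT M, tm p q W c x := by
  unfold Fm
  rw [sum_sigma']
  refine sum_bij (fun (x : Σ _ : ℕ, ℕ) _ => ((x.1 + 1, x.2) : ℕ × ℕ)) ?_ ?_ ?_ ?_
  · rintro ⟨m, n⟩ h
    rw [mem_sigma, mem_range, mem_Ico] at h
    rw [mem_TT]
    simp only at h ⊢
    omega
  · rintro ⟨m, n⟩ _ ⟨m', n'⟩ _ h
    simp only [Prod.mk.injEq, Nat.add_right_cancel_iff] at h
    obtain ⟨h1, h2⟩ := h
    subst h1 h2
    rfl
  · rintro ⟨m, n⟩ h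
    rw [mem_TT] at h
    simp only at h
    refine ⟨⟨m - 1, n⟩, ?_, ?_⟩
    · rw [mem_sigma, mem_range, mem_Ico]
      simp only
      omega
    · simp only [Prod.mk.injEq, and_true]
      omega
  · rintro ⟨m, n⟩ _
    rfl

/-- **The combination of double zeta values is the sum over the pairs up to `M` and a small
error.** -/
theorem ser {p q W : ℕ} (hp : 3 ≤ p) (hW : W ≤ q) {c : ℕ → ℤ} {B : ℝ}
    (hc : ∀ i ≤ W, |(c i : ℝ)| ≤ B) (M : ℕ) :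
    |∑ i ∈ range (W + 1), (c i : ℝ) * dz (p + i) (q - i) - ∑ x ∈ TT M, tm p q W c x| ≤
      2 * B * (W + 1) * (((M : ℝ) + 1) ^ 3 / ((M : ℝ) + 1) ^ p) := by
  have hB : 0 ≤ B := (abs_nonneg _).trans (hc 0 (Nat.zero_le _))
  have hs := summable_Fm (q := q) hp hc
  rw [comb_eq hp hW, ← hs.sum_add_tsum_nat_add M, sum_Fm, add_sub_cancel_left]
  have h1 : ∀ m : ℕ, |Fm p q W c (m + M)| ≤ B * (W + 1) *
      (((M : ℝ) + 1) ^ 3 / ((M : ℝ) + 1) ^ p) * (1 / ((m : ℝ) + 1) ^ 2) := by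
    intro m
    refine (abs_Fm_le hc (m + M)).trans ?_
    rw [mul_assoc (B * (W + 1))]
    exact mul_le_mul_of_nonneg_left (pow_comp hp m M) (by positivity)
  have h2 : Summable fun m : ℕ => B * (W + 1) *
      (((M : ℝ) + 1) ^ 3 / ((M : ℝ) + 1) ^ p) * (1 / ((m : ℝ) + 1) ^ 2) :=
    summable_sq.mul_left _
  have h3 : |∑' m : ℕ, Fm p q W c (m + M)| ≤ ∑' m : ℕ, B * (W + 1) *
      (((M : ℝ) + 1) ^ 3 / ((M : ℝ) + 1) ^ p) * (1 / ((m : ℝ) + 1) ^ 2) := by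
    have h4 := tsum_of_norm_bounded h2.hasSum (f := fun m : ℕ => Fm p q W c (m + M))
      (fun m => by rw [Real.norm_eq_abs]; exact h1 m)
    rwa [Real.norm_eq_abs] at h4
  refine h3.trans ?_
  rw [tsum_mul_left]
  have h5 := tsum_sq_le
  calc B * (W + 1) * (((M : ℝ) + 1) ^ 3 / ((M : ℝ) + 1) ^ p) * ∑' m : ℕ, 1 / ((m : ℝ) + 1) ^ 2
      ≤ B * (W + 1) * (((M : ℝ) + 1) ^ 3 / ((M : ℝ) + 1) ^ p) * 2 := by gcongr
    _ = _ := by ring

/-- lower bound for a nonzero value of the polynomial -/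
lemma pv_ge {W : ℕ} {c : ℕ → ℤ} {m n : ℕ} (hm : 0 < m) (h : pv W c ((n : ℝ) / m) ≠ 0) :
    1 / (m : ℝ) ^ W ≤ |pv W c ((n : ℝ) / m)| := by
  have hm0 : (0 : ℝ) < m := by exact_mod_cast hm
  have h1 : pv W c ((n : ℝ) / m) * (m : ℝ) ^ W =
      ((∑ i ∈ range (W + 1), c i * (n : ℤ) ^ i * (m : ℤ) ^ (W - i) : ℤ) : ℝ) := by
    unfold pv
    rw [sum_mul]
    push_cast
    refine sum_congr rfl fun i hi => ?_
    rw [mem_range] at hi
    have h2 : (m : ℝ) ^ W = (m : ℝ) ^ i * (m : ℝ) ^ (W - i) := by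
      rw [← pow_add]
      congr 1
      omega
    rw [h2, div_pow]
    field_simp
  have h3 : (∑ i ∈ range (W + 1), c i * (n : ℤ) ^ i * (m : ℤ) ^ (W - i) : ℤ) ≠ 0 := by
    intro h4
    rw [h4, Int.cast_zero] at h1
    exact (mul_ne_zero h (by positivity)) h1
  rw [div_le_iff₀ (by positivity)]
  have h5 : |pv W c ((n : ℝ) / m)| * (m : ℝ) ^ W = |pv W c ((n : ℝ) / m) * (m : ℝ) ^ W| := by
    rw [abs_mul, abs_of_pos (show (0 : ℝ) < (m : ℝ) ^ W by positivity)]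
  rw [h5, h1]
  exact_mod_cast Int.one_le_abs h3

/-- a polynomial with integer coefficients smaller than the prime number `l` does not vanish at
`1 / l` -/
lemma pv_ne {W : ℕ} {c : ℕ → ℤ} {l : ℕ} (hl : l.Prime) (hc : ∀ i ≤ W, |(c i : ℝ)| < l)
    (h : ∃ i ≤ W, c i ≠ 0) : pv W c ((1 : ℝ) / l) ≠ 0 := by
  intro h0
  classical
  -- the largest index with a nonzero coefficient
  obtain ⟨i0, hi0, hci0⟩ := h
  set S := (range (W + 1)).filter fun i => c i ≠ 0 with hS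
  have hSne : S.Nonempty := ⟨i0, by rw [hS, mem_filter, mem_range]; exact ⟨by omega, hci0⟩⟩
  set t := S.max' hSne with ht
  have htS : t ∈ S := S.max'_mem hSne
  rw [hS, mem_filter, mem_range] at htS
  have hmax : ∀ i, t < i → i ≤ W → c i = 0 := by
    intro i h1 h2
    by_contra h3
    have h4 : i ∈ S := by rw [hS, mem_filter, mem_range]; exact ⟨by omega, h3⟩
    have h5 := S.le_max' i h4
    omega
  have hl0 : (l : ℝ) ≠ 0 := by exact_mod_cast hl.ne_zero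
  have h1 : ((∑ i ∈ range (t + 1), c i * (l : ℤ) ^ (t - i) : ℤ) : ℝ) = 0 := by
    have h2 : pv W c ((1 : ℝ) / l) * (l : ℝ) ^ t = 0 := by rw [h0, zero_mul]
    rw [← h2]
    unfold pv
    have h3 : ∑ i ∈ range (W + 1), (c i : ℝ) * ((1 : ℝ) / l) ^ i =
        ∑ i ∈ range (t + 1), (c i : ℝ) * ((1 : ℝ) / l) ^ i := by
      symm
      apply sum_subset
      · intro i hi
        rw [mem_range] at hi ⊢
        omega
      · intro i hi hi'
        rw [mem_range] at hi hi'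
        rw [hmax i (by omega) (by omega)]
        simp
    rw [h3, sum_mul]
    push_cast
    refine sum_congr rfl fun i hi => ?_
    rw [mem_range] at hi
    have h4 : (l : ℝ) ^ t = (l : ℝ) ^ i * (l : ℝ) ^ (t - i) := by
      rw [← pow_add]
      congr 1
      omega
    rw [h4, div_pow, one_pow]
    field_simp
  have h2 : ∑ i ∈ range (t + 1), c i * (l : ℤ) ^ (t - i) = 0 := by exact_mod_cast h1
  rw [sum_range_succ, Nat.sub_self, pow_zero, mul_one] at h2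
  have h3 : (l : ℤ) ∣ c t := by
    have h4 : (l : ℤ) ∣ ∑ i ∈ range t, c i * (l : ℤ) ^ (t - i) := by
      refine dvd_sum fun i hi => ?_
      rw [mem_range] at hi
      exact Dvd.dvd.mul_left (dvd_pow_self _ (by omega)) _
    have h5 : c t = -∑ i ∈ range t, c i * (l : ℤ) ^ (t - i) := by linarith
    rw [h5]
    exact (dvd_neg).2 h4
  have h4 := Int.le_of_dvd (abs_pos.2 htS.2) ((dvd_abs _ _).2 h3)
  have h5 : (l : ℝ) ≤ |(c t : ℝ)| := by exact_mod_cast h4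
  have h6 := hc t (by omega)
  linarith

end Pool.Agent.D0H51.DZ
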