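import Mathlib
import Pool.Agent.Y724.Vj.LB2

/-!
# Lower bounds for sums of S-unit germs with negligible coefficients: one class is a single unit
-/

set_option autoImplicit false

namespace Pool.Agent.D0H51.DZ

open Filter Topology Pool.Agent.TH932.Germs Pool.Agent.TH551.SU Pool.Agent.Y724.Vj

variable {L : ℕ → ℝ}

/-- A sum of `S`-unit germs with negligible coefficients is not smaller than a term which is not
equivalent to the other ones. -/
theorem lbg {s : ℕ} (b : Fin s → ℕ) (hb : ∀ v, (b v).Prime) (hbi : Function.Injective b)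
    (hL : Tendsto L atTop atTop) {ι : Type} [DecidableEq ι] (u : ι → GG)
    (hu : ∀ i, GSU b (u i)) (hbd : ∀ i j, Bd L (u i / u j)) (v0 : Option (Fin s)) (i0 : ι) :
    ∀ (r : ℕ) (T : Finset ι), T.card = r → i0 ∈ T → ∀ c : ι → KK L hL, c i0 ≠ 0 →
      (∀ i ∈ T, i ≠ i0 → u i / u i0 ∉ KK L hL) →
      (OO L hL (wv b hb v0)).valuation (u i0) ≤
      (OO L hL (wv b hb v0)).valuation (∑ i ∈ T, (c i : GG) * u i) := by
  have hu0 : ∀ i, u i ≠ 0 := fun i => gsu_ne_zero hb (hu i)
  intro r
  induction r with
  | zero =>
    intro T hT hi0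
    rw [Finset.card_eq_zero] at hT
    rw [hT] at hi0
    exact absurd hi0 (Finset.notMem_empty _)
  | succ r ih =>
    intro T hT hi0 c hc hcl
    by_cases hA : ∃ i ∈ T, i ≠ i0 ∧ c i = 0
    · obtain ⟨i, hi, hii0, hci⟩ := hA
      have h1 := ih (T.erase i) (by rw [Finset.card_erase_of_mem hi, hT]; rfl)
        (Finset.mem_erase.2 ⟨hii0.symm, hi0⟩) c hc
        (fun j hj => hcl j (Finset.mem_of_mem_erase hj))
      have h2 : ∑ j ∈ T, (c j : GG) * u j = ∑ j ∈ T.erase i, (c j : GG) * u j := by
        rw [← Finset.add_sum_erase T _ hi, hci]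
        simp
      rw [h2]
      exact h1
    by_cases hB : ∃ i ∈ T, ∃ j ∈ T, i ≠ j ∧ u i / u j ∈ KK L hL
    · obtain ⟨i, hi, j, hj, hij, hK⟩ := hB
      have hii0 : i ≠ i0 := by
        rintro rfl
        apply hcl j hj hij.symm
        have h1 := (KK L hL).inv_mem hK
        rwa [inv_div] at h1
      have hji0 : j ≠ i0 := by
        rintro rfl
        exact hcl i hi hij hK
      set c' : ι → KK L hL := Function.update c j (c j + c i * ⟨u i / u j, hK⟩) with hc'
      have h1 := ih (T.erase i) (by rw [Finset.card_erase_of_mem hi, hT]; rfl)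
        (Finset.mem_erase.2 ⟨hii0.symm, hi0⟩) c'
        (by rw [hc', Function.update_of_ne hji0.symm]; exact hc)
        (fun l hl => hcl l (Finset.mem_of_mem_erase hl))
      have hj' : j ∈ T.erase i := Finset.mem_erase.2 ⟨hij.symm, hj⟩
      have h2 : ∑ l ∈ T, (c l : GG) * u l = ∑ l ∈ T.erase i, (c' l : GG) * u l := by
        rw [← Finset.add_sum_erase T _ hi, ← Finset.add_sum_erase (T.erase i) _ hj',
          ← Finset.add_sum_erase (T.erase i) _ hj']
        have h3 : ∑ l ∈ (T.erase i).erase j, (c' l : GG) * u l =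
            ∑ l ∈ (T.erase i).erase j, (c l : GG) * u l := by
          refine Finset.sum_congr rfl fun l hl => ?_
          rw [hc', Function.update_of_ne (Finset.ne_of_mem_erase hl)]
        rw [h3, hc', Function.update_self]
        have h4 : (((c j + c i * ⟨u i / u j, hK⟩ : KK L hL)) : GG) * u j =
            (c j : GG) * u j + (c i : GG) * u i := by
          push_cast
          rw [add_mul, mul_assoc, div_mul_cancel₀ _ (hu0 j)]
        rw [h4]
        ring
      rw [h2]
      exact h1
    · push Not at hA hB
      set e := T.equivFinOfCardEq hT with he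
      have h1 := lb b hb hbi hL (fun l : Fin (r + 1) => u (e.symm l).1) (fun l => hu _)
        (fun l l' hll => hB _ (e.symm l).2 _ (e.symm l').2 fun h => hll (by
          have h3 : e.symm l = e.symm l' := Subtype.ext h
          exact e.symm.injective h3))
        (fun l l' => hbd _ _) (fun l => c (e.symm l).1)
        (fun l => by
          by_cases h : (e.symm l).1 = i0
          · rw [h]; exact hc
          · exact hA _ (e.symm l).2 h) v0 (e ⟨i0, hi0⟩)
      have h2 : ∑ l : Fin (r + 1), (c (e.symm l).1 : GG) * u (e.symm l).1 =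
          ∑ i ∈ T, (c i : GG) * u i := by
        rw [Equiv.sum_comp e.symm (fun i : T => (c i.1 : GG) * u i.1)]
        exact Finset.sum_coe_sort T (fun i => (c i : GG) * u i)
      rw [h2] at h1
      simpa using h1

end Pool.Agent.D0H51.DZ
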