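import Mathlib
import Pool.Agent.D0H51.DZ.Ser
import Pool.Agent.D0H51.DZ.Grp

/-!
# The sum over the pairs up to a prime number, both exponents of the same order (subspace theorem)
-/

set_option autoImplicit false

namespace Pool.Agent.D0H51.DZ

open Finset Filter Topology Pool.Agent.TH932.Germs Pool.Agent.TH551.SU Pool.Agent.Y724.Vj

/-- an elementary estimate -/
lemma ev_small (C η : ℝ) (hC : 0 ≤ C) (hη : 0 < η) : ∃ P : ℕ, ∀ p : ℝ, (P : ℝ) ≤ p →
    C * (p + 1) * Real.exp (-(η * p)) ≤ 1 / 4 := by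
  obtain ⟨P, hP⟩ := exists_nat_ge (max 1 (16 * C / η ^ 2))
  refine ⟨P, fun p hp => ?_⟩
  have h1 : 1 ≤ p := (le_max_left _ _).trans (hP.trans hp)
  have h2 : 16 * C / η ^ 2 ≤ p := (le_max_right _ _).trans (hP.trans hp)
  rw [div_le_iff₀ (by positivity)] at h2
  have h3 := Real.quadratic_le_exp_of_nonneg (x := η * p) (by positivity)
  have h4 : 0 < Real.exp (η * p) := Real.exp_pos _
  rw [Real.exp_neg, ← div_eq_mul_inv, div_le_iff₀ h4]
  have h5 : 0 ≤ η * p := by positivity
  nlinarith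

/-- the rational value of the polynomial -/
def pvQ (W : ℕ) (c : ℕ → ℤ) (x : ℚ) : ℚ := ∑ i ∈ range (W + 1), (c i : ℚ) * x ^ i

/-- the unit of the pair -/
def uQ (p q : ℕ) (x : ℕ × ℕ) : ℚ := 1 / ((x.1 : ℚ) ^ p * (x.2 : ℚ) ^ q)

lemma tm_cast (p q W : ℕ) (c : ℕ → ℤ) (x : ℕ × ℕ) :
    tm p q W c x = ((pvQ W c ((x.2 : ℚ) / x.1) * uQ p q x : ℚ) : ℝ) := by
  unfold tm pv pvQ uQ
  push_cast
  rw [mul_one_div]

lemma pv_cast (W : ℕ) (c : ℕ → ℤ) (x : ℚ) : pv W c (x : ℝ) = ((pvQ W c x : ℚ) : ℝ) := by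
  unfold pv pvQ
  push_cast
  rfl

/-- the number of the primes up to `l` -/
def np (l : ℕ) : ℕ := ((range (l + 1)).filter Nat.Prime).card

/-- the primes up to `l` -/
noncomputable def bp (l : ℕ) (v : Fin (np l)) : ℕ :=
  (((range (l + 1)).filter Nat.Prime).equivFin.symm v).1

lemma bp_prime (l : ℕ) (v : Fin (np l)) : (bp l v).Prime := by
  have h := (((range (l + 1)).filter Nat.Prime).equivFin.symm v).2
  rw [mem_filter] at h
  exact h.2

lemma bp_inj (l : ℕ) : Function.Injective (bp l) := by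
  intro v w h
  have h1 := Subtype.ext (a1 := ((range (l + 1)).filter Nat.Prime).equivFin.symm v)
    (a2 := ((range (l + 1)).filter Nat.Prime).equivFin.symm w) h
  exact (Equiv.injective _) h1

lemma prod_bp {l m : ℕ} (hm : 1 ≤ m) (hml : m ≤ l) :
    ∏ v, (bp l v : ℚ) ^ (m.factorization (bp l v)) = m := by
  have h1 : ∏ v, (bp l v : ℚ) ^ (m.factorization (bp l v)) =
      ∏ p ∈ (range (l + 1)).filter Nat.Prime, (p : ℚ) ^ (m.factorization p) := by
    rw [← Finset.prod_coe_sort ((range (l + 1)).filter Nat.Prime)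
      (fun p => (p : ℚ) ^ (m.factorization p))]
    exact Equiv.prod_comp (((range (l + 1)).filter Nat.Prime).equivFin.symm)
      (fun p : ((range (l + 1)).filter Nat.Prime : Finset ℕ) =>
        ((p.1 : ℕ) : ℚ) ^ (m.factorization p.1))
  have h2 : ∏ p ∈ (range (l + 1)).filter Nat.Prime, p ^ (m.factorization p) = m := by
    rw [← Finsupp.prod_of_support_subset m.factorization (s := (range (l + 1)).filter Nat.Prime)
      ?_ (fun p k => p ^ k) (fun p _ => pow_zero p)]
    · exact Nat.prod_factorization_pow_eq_self (by omega)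
    · intro p hp
      rw [Nat.support_factorization] at hp
      rw [mem_filter, mem_range]
      have h3 := Nat.le_of_mem_primeFactors hp
      exact ⟨by omega, Nat.prime_of_mem_primeFactors hp⟩
  rw [h1]
  exact_mod_cast h2

lemma isSU_uQ {l : ℕ} {x : ℕ × ℕ} (hx : x ∈ TT l) (p q : ℕ) : IsSU (bp l) (uQ p q x) := by
  rw [mem_TT] at hx
  obtain ⟨h1, h2, h3⟩ := hx
  refine ⟨1, fun v => -((p * x.1.factorization (bp l v) + q * x.2.factorization (bp l v) : ℕ) : ℤ),
    Or.inl rfl, ?_⟩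
  unfold uQ
  have e1 := prod_bp (l := l) (m := x.1) (by omega) h3
  have e2 := prod_bp (l := l) (m := x.2) h1 (by omega)
  conv_lhs => rw [← e1, ← e2]
  rw [← Finset.prod_pow, ← Finset.prod_pow, ← Finset.prod_mul_distrib, one_div,
    ← Finset.prod_inv_distrib, Int.cast_one, one_mul]
  refine Finset.prod_congr rfl fun v _ => ?_
  rw [zpow_neg, zpow_natCast, pow_add, pow_mul', pow_mul']

lemma gm_sum {ι : Type} (T : Finset ι) (f : ι → ℕ → ℚ) :
    ∑ i ∈ T, gm (f i) = gm (fun n => ∑ i ∈ T, f i n) := by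
  classical
  induction T using Finset.induction_on with
  | empty => simp [gm_zero]
  | insert x A hx ih =>
    rw [Finset.sum_insert hx, ih, gm_add]
    congr 1
    funext n
    rw [Finset.sum_insert hx]

theorem mid_seq (l : ℕ) (hl : l.Prime) (B K ε : ℝ) (hε : 0 < ε) (hK : 0 < K) (α β W : ℕ → ℕ)
    (c : ℕ → ℕ → ℤ) (hα : Tendsto (fun j => (α j : ℝ)) atTop atTop)
    (h1 : ∀ j, (β j : ℝ) ≤ K * α j) (h2 : ∀ j, (α j : ℝ) ≤ K * β j)
    (h3 : ∀ j, (W j : ℝ) * (j + 1) ≤ α j) (h4 : ∀ j, ∀ i ≤ W j, |(c j i : ℝ)| ≤ B)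
    (h5 : ∀ j, pv (W j) (c j) (1 / l) ≠ 0) :
    ∀ᶠ j in (UU : Filter ℕ), 1 / (l : ℝ) ^ (α j) ≤
      |∑ x ∈ TT l, tm (α j) (β j) (W j) (c j) x| * Real.exp (ε * α j) := by
  classical
  have hl2 : 2 ≤ l := hl.two_le
  have hB : 0 ≤ B := (abs_nonneg _).trans (h4 0 0 (Nat.zero_le _))
  have hlog : 0 < Real.log l := Real.log_pos (by exact_mod_cast (by omega : 1 < l))
  have hi0 : ((l, 1) : ℕ × ℕ) ∈ TT l := by
    rw [mem_TT]
    simp only
    omega
  -- the field of negligible germs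
  have hNl : ∀ m : ℕ, 1 ≤ m → m ≤ l → Negl (fun j => (α j : ℝ)) (fun j => ((m : ℤ) ^ (W j))) := by
    intro m hm1 hml δ hδ
    have hev : ∀ᶠ j : ℕ in atTop, Real.log l / δ ≤ (j : ℝ) + 1 := by
      obtain ⟨J, hJ⟩ := exists_nat_ge (Real.log l / δ)
      filter_upwards [eventually_ge_atTop J] with j hj
      have : (J : ℝ) ≤ j := by exact_mod_cast hj
      linarith
    filter_upwards [ev_of_atTop hev] with j hj
    push_cast
    rw [abs_of_nonneg (by positivity)]
    have e1 : ((m : ℝ)) ^ (W j) ≤ (l : ℝ) ^ (W j) := by gcongr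
    refine e1.trans ?_
    have hl0 : (0 : ℝ) < l := by exact_mod_cast hl.pos
    rw [← Real.exp_log (pow_pos hl0 _), Real.log_pow]
    apply Real.exp_le_exp.2
    rw [div_le_iff₀ hδ] at hj
    have e2 : (W j : ℝ) * Real.log l ≤ W j * ((j + 1) * δ) := by gcongr
    have e3 := h3 j
    nlinarith
  have hcK : ∀ x ∈ TT l, gm (fun j => pvQ (W j) (c j) ((x.2 : ℚ) / x.1)) ∈
      KK (fun j => (α j : ℝ)) hα := by
    intro x hx
    rw [mem_TT] at hx
    obtain ⟨hx1, hx2, hx3⟩ := hx
    refine ⟨fun j => ∑ i ∈ range (W j + 1), c j i * (x.2 : ℤ) ^ i * (x.1 : ℤ) ^ (W j - i),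
      fun j => (x.1 : ℤ) ^ (W j), ?_, hNl _ (by omega) hx3, ?_, ?_⟩
    · intro δ hδ
      obtain ⟨P, hP⟩ := ev_small B (δ / 2) hB (by positivity)
      filter_upwards [hNl x.1 (by omega) hx3 (δ / 2) (by positivity),
        ev_of_atTop (hα.eventually_ge_atTop P)] with j hj1 hj2
      have hx10 : (0 : ℝ) < x.1 := by
        have : 0 < x.1 := by omega
        exact_mod_cast this
      have e1 : ((∑ i ∈ range (W j + 1), c j i * (x.2 : ℤ) ^ i * (x.1 : ℤ) ^ (W j - i) : ℤ) : ℝ) =
          pv (W j) (c j) ((x.2 : ℝ) / x.1) * (x.1 : ℝ) ^ (W j) := by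
        unfold pv
        rw [sum_mul]
        push_cast
        refine sum_congr rfl fun i hi => ?_
        rw [mem_range] at hi
        have e2 : (x.1 : ℝ) ^ (W j) = (x.1 : ℝ) ^ i * (x.1 : ℝ) ^ (W j - i) := by
          rw [← pow_add]
          congr 1
          omega
        rw [e2, div_pow]
        field_simp
      rw [e1, abs_mul]
      have e3 : |pv (W j) (c j) ((x.2 : ℝ) / x.1)| ≤ B * (W j + 1) := by
        refine pv_le (h4 j) (by positivity) ?_
        rw [div_le_one hx10]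
        exact_mod_cast hx2.le
      have e4 : B * ((W j : ℝ) + 1) ≤ Real.exp (δ / 2 * α j) := by
        have e5 := hP _ hj2
        have e6 : (W j : ℝ) ≤ α j := by
          have e7 := h3 j
          have e8 : (0 : ℝ) ≤ W j := Nat.cast_nonneg _
          have e9 : (0 : ℝ) ≤ j := Nat.cast_nonneg _
          nlinarith
        rw [Real.exp_neg, ← div_eq_mul_inv, div_le_iff₀ (Real.exp_pos _)] at e5
        have e7 : 0 < Real.exp (δ / 2 * α j) := Real.exp_pos _
        have e8 : B * ((W j : ℝ) + 1) ≤ B * ((α j : ℝ) + 1) := by gcongr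
        linarith
      have e5 : |(x.1 : ℝ) ^ (W j)| ≤ Real.exp (δ / 2 * α j) := by
        have := hj1
        push_cast at this
        exact this
      calc |pv (W j) (c j) ((x.2 : ℝ) / x.1)| * |(x.1 : ℝ) ^ (W j)|
          ≤ Real.exp (δ / 2 * α j) * Real.exp (δ / 2 * α j) :=
            mul_le_mul (e3.trans e4) e5 (abs_nonneg _) (Real.exp_pos _).le
        _ = Real.exp (δ * α j) := by rw [← Real.exp_add]; ring_nf
    · refine Eventually.of_forall fun j => pow_ne_zero _ ?_
      have : x.1 ≠ 0 := by omega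
      exact_mod_cast this
    · congr 1
      funext j
      have hx10 : (x.1 : ℚ) ≠ 0 := by
        have : x.1 ≠ 0 := by omega
        exact_mod_cast this
      unfold pvQ
      push_cast
      rw [eq_div_iff (pow_ne_zero _ hx10), sum_mul]
      refine sum_congr rfl fun i hi => ?_
      rw [mem_range] at hi
      have e2 : (x.1 : ℚ) ^ (W j) = (x.1 : ℚ) ^ i * (x.1 : ℚ) ^ (W j - i) := by
        rw [← pow_add]
        congr 1
        omega
      rw [e2, div_pow]
      field_simp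
  -- the units
  set ι := {x : ℕ × ℕ // x ∈ TT l} with hι
  set u : ι → GG := fun x => gm (fun j => uQ (α j) (β j) x.1) with hu
  have hGSU : ∀ i, GSU (bp l) (u i) := fun i => ⟨_, rfl, fun j => isSU_uQ i.2 _ _⟩
  have hquo : ∀ x y : ι, u x / u y = gm (fun j =>
      (((y.1.1 : ℤ) ^ (α j) * (y.1.2 : ℤ) ^ (β j) : ℤ) : ℚ) /
        (((x.1.1 : ℤ) ^ (α j) * (x.1.2 : ℤ) ^ (β j) : ℤ) : ℚ)) := by
    intro x y
    rw [hu]
    simp only
    rw [gm_div]
    congr 1
    funext j
    unfold uQ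
    push_cast
    rw [one_div, one_div, inv_div_inv]
  have hbd : ∀ i j, Bd (fun j => (α j : ℝ)) (u i / u j) := by
    intro x y
    have hsz : ∀ z : ι, ∀ᶠ j in (UU : Filter ℕ),
        |(((z.1.1 : ℤ) ^ (α j) * (z.1.2 : ℤ) ^ (β j) : ℤ) : ℝ)| ≤
          Real.exp ((1 + K) * Real.log l * α j) := by
      intro z
      refine Eventually.of_forall fun j => ?_
      have hz := z.2
      rw [mem_TT] at hz
      push_cast
      rw [abs_of_nonneg (by positivity)]
      have e1 : (z.1.1 : ℝ) ≤ l := by exact_mod_cast hz.2.2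
      have e2 : (z.1.2 : ℝ) ≤ l := by
        have : z.1.2 ≤ l := by omega
        exact_mod_cast this
      have hl0 : (0 : ℝ) < l := by exact_mod_cast hl.pos
      calc (z.1.1 : ℝ) ^ (α j) * (z.1.2 : ℝ) ^ (β j) ≤ (l : ℝ) ^ (α j) * (l : ℝ) ^ (β j) := by
            gcongr
        _ = Real.exp (((α j : ℝ) + β j) * Real.log l) := by
            rw [← pow_add, ← Real.exp_log (pow_pos hl0 _), Real.log_pow]
            push_cast
            rfl
        _ ≤ _ := by
            apply Real.exp_le_exp.2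
            have e3 := h1 j
            have e4 : ((α j : ℝ) + β j) * Real.log l ≤ ((1 + K) * α j) * Real.log l := by
              gcongr
              linarith
            calc ((α j : ℝ) + β j) * Real.log l ≤ ((1 + K) * α j) * Real.log l := e4
              _ = _ := by ring
    refine ⟨_, _, (1 + K) * Real.log l, hsz y, hsz x, ?_, hquo x y⟩
    refine Eventually.of_forall fun j => ?_
    have hx := x.2
    rw [mem_TT] at hx
    have e1 : (x.1.1 : ℤ) ≠ 0 := by
      have : x.1.1 ≠ 0 := by omega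
      exact_mod_cast this
    have e2 : (x.1.2 : ℤ) ≠ 0 := by
      have : x.1.2 ≠ 0 := by omega
      exact_mod_cast this
    exact mul_ne_zero (pow_ne_zero _ e1) (pow_ne_zero _ e2)
  have hcl : ∀ i : ι, i ≠ ⟨(l, 1), hi0⟩ → u i / u ⟨(l, 1), hi0⟩ ∉
      KK (fun j => (α j : ℝ)) hα := by
    intro x hx hK'
    obtain ⟨M, D, hM, hD, hD0, hq⟩ := hK'
    rw [hquo, gm_eq] at hq
    have hx' := x.2
    rw [mem_TT] at hx'
    obtain ⟨hx1, hx2, hx3⟩ := hx'
    have hαpos : ∀ᶠ j in (UU : Filter ℕ), (1 : ℝ) ≤ α j := ev_of_atTop (hα.eventually_ge_atTop 1)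
    have hfin : ∀ᶠ j in (UU : Filter ℕ), False := by
      filter_upwards [hq, hD0, hM (Real.log l / 2) (by positivity),
        hD (Real.log 2 / (2 * K)) (by have := Real.log_pos one_lt_two; positivity), hαpos]
        with j e1 e2 e3 e4 e5
      simp only [Nat.cast_one, one_pow, mul_one] at e1
      have f1 : (x.1.1 : ℤ) ≠ 0 := by
        have : x.1.1 ≠ 0 := by omega
        exact_mod_cast this
      have f2 : (x.1.2 : ℤ) ≠ 0 := by
        have : x.1.2 ≠ 0 := by omega
        exact_mod_cast this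
      have f3 : (x.1.1 : ℤ) ^ (α j) * (x.1.2 : ℤ) ^ (β j) ≠ 0 :=
        mul_ne_zero (pow_ne_zero _ f1) (pow_ne_zero _ f2)
      have f4 : (l : ℤ) ^ (α j) * D j = M j * ((x.1.1 : ℤ) ^ (α j) * (x.1.2 : ℤ) ^ (β j)) := by
        rw [div_eq_div_iff (by exact_mod_cast f3) (by exact_mod_cast e2)] at e1
        exact_mod_cast e1
      have hlZ : (l : ℤ) ≠ 0 := by exact_mod_cast hl.ne_zero
      have f5 : M j ≠ 0 := by
        intro h0
        rw [h0, zero_mul] at f4
        exact (mul_ne_zero (pow_ne_zero _ hlZ) e2) f4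
      by_cases hxl : x.1.1 = l
      · -- the first components are equal
        have hx22 : 2 ≤ x.1.2 := by
          by_contra hlt
          apply hx
          apply Subtype.ext
          apply Prod.ext
          · exact hxl
          · change x.1.2 = 1
            omega
        rw [hxl] at f4
        have f6 : D j = M j * (x.1.2 : ℤ) ^ (β j) := by
          apply mul_left_cancel₀ (pow_ne_zero (α j) hlZ)
          rw [f4]
          ring
        have f7 : (2 : ℝ) ^ (β j) ≤ |(D j : ℝ)| := by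
          rw [f6]
          push_cast
          rw [abs_mul, abs_of_nonneg (show (0 : ℝ) ≤ (x.1.2 : ℝ) ^ (β j) by positivity)]
          have f8 : (1 : ℝ) ≤ |(M j : ℝ)| := by exact_mod_cast Int.one_le_abs f5
          have f9 : (2 : ℝ) ^ (β j) ≤ (x.1.2 : ℝ) ^ (β j) := by
            gcongr
            exact_mod_cast hx22
          nlinarith [pow_pos (show (0 : ℝ) < 2 by norm_num) (β j)]
        have f8 : Real.exp (Real.log 2 / K * α j) ≤ (2 : ℝ) ^ (β j) := by
          rw [← Real.exp_log (pow_pos (show (0 : ℝ) < 2 by norm_num) (β j)), Real.log_pow]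
          apply Real.exp_le_exp.2
          have f9 := h2 j
          have f10 := Real.log_pos one_lt_two
          rw [div_mul_eq_mul_div, div_le_iff₀ hK]
          nlinarith
        have f9 : Real.exp (Real.log 2 / (2 * K) * α j) < Real.exp (Real.log 2 / K * α j) := by
          apply Real.exp_lt_exp.2
          have f10 := Real.log_pos one_lt_two
          have f11 : Real.log 2 / (2 * K) < Real.log 2 / K := by
            apply div_lt_div_of_pos_left f10 hK
            linarith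
          have f12 : (0 : ℝ) < α j := by linarith
          exact mul_lt_mul_of_pos_right f11 f12
        linarith
      · have hlt : x.1.1 < l := by omega
        have f6 : (l : ℤ) ^ (α j) ∣ M j := by
          have g1 : (l : ℤ) ^ (α j) ∣ M j * ((x.1.1 : ℤ) ^ (α j) * (x.1.2 : ℤ) ^ (β j)) :=
            ⟨D j, f4.symm⟩
          have g2 : ∀ m : ℕ, 1 ≤ m → m < l → IsCoprime (l : ℤ) (m : ℤ) := by
            intro m hm1 hm2
            rw [Nat.isCoprime_iff_coprime]
            exact (Nat.Prime.coprime_iff_not_dvd hl).2 (Nat.not_dvd_of_pos_of_lt (by omega) hm2)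
          have g3 : IsCoprime ((l : ℤ) ^ (α j)) ((x.1.1 : ℤ) ^ (α j) * (x.1.2 : ℤ) ^ (β j)) :=
            IsCoprime.mul_right ((g2 _ (by omega) hlt).pow) ((g2 _ hx1 (by omega)).pow)
          exact g3.dvd_of_dvd_mul_right g1
        have f7 := Int.le_of_dvd (abs_pos.2 f5) ((dvd_abs _ _).2 f6)
        have f8 : (l : ℝ) ^ (α j) ≤ |(M j : ℝ)| := by exact_mod_cast f7
        have hl0 : (0 : ℝ) < l := by exact_mod_cast hl.pos
        have f9 : Real.exp (Real.log l / 2 * α j) < (l : ℝ) ^ (α j) := by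
          rw [← Real.exp_log (pow_pos hl0 (α j)), Real.log_pow]
          apply Real.exp_lt_exp.2
          have f10 : (0 : ℝ) < α j := by linarith
          nlinarith
        linarith
    obtain ⟨_, hf⟩ := hfin.exists
    exact hf
  -- the germ of the sum
  have hc0 : (⟨gm (fun j => pvQ (W j) (c j) (((1 : ℕ) : ℚ) / (l : ℕ))), hcK _ hi0⟩ :
      KK (fun j => (α j : ℝ)) hα) ≠ 0 := by
    intro h
    have h6 : gm (fun j => pvQ (W j) (c j) (((1 : ℕ) : ℚ) / (l : ℕ))) = 0 :=
      congrArg Subtype.val h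
    rw [← gm_zero, gm_eq] at h6
    obtain ⟨j, hj⟩ := h6.exists
    apply h5 j
    have h7 : ((1 : ℝ) / l) = (((((1 : ℕ) : ℚ) / (l : ℕ)) : ℚ) : ℝ) := by push_cast; rfl
    rw [h7, pv_cast, hj]
    simp
  have key := lbg (bp l) (bp_prime l) (bp_inj l) hα u hGSU hbd none ⟨(l, 1), hi0⟩ _ Finset.univ rfl
    (Finset.mem_univ _) (fun x : ι => ⟨_, hcK x.1 x.2⟩) hc0 (fun i _ hi => hcl i hi)
  have hsum : ∑ i : ι, ((⟨_, hcK i.1 i.2⟩ : KK (fun j => (α j : ℝ)) hα) : GG) * u i =
      gm (fun j => ∑ x ∈ TT l, pvQ (W j) (c j) ((x.2 : ℚ) / x.1) * uQ (α j) (β j) x) := by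
    have h6 : ∀ i : ι, ((⟨_, hcK i.1 i.2⟩ : KK (fun j => (α j : ℝ)) hα) : GG) * u i =
        gm (fun j => pvQ (W j) (c j) ((i.1.2 : ℚ) / i.1.1) * uQ (α j) (β j) i.1) :=
      fun i => rfl
    rw [Finset.sum_congr rfl fun i _ => h6 i, gm_sum]
    congr 1
    funext j
    exact Finset.sum_coe_sort (TT l)
      (fun x => pvQ (W j) (c j) ((x.2 : ℚ) / x.1) * uQ (α j) (β j) x)
  rw [hsum] at key
  have key2 := val_le hα (wv (bp l) (bp_prime l) none) key ε hε
  filter_upwards [key2] with j hj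
  have hw : ∀ y : ℚ, wv (bp l) (bp_prime l) none y = |(y : ℝ)| := by
    intro y
    change Rat.AbsoluteValue.real y = _
    rw [Rat.AbsoluteValue.real_eq_abs]
    push_cast
    rfl
  rw [hw, hw] at hj
  have h6 : |((uQ (α j) (β j) (l, 1) : ℚ) : ℝ)| = 1 / (l : ℝ) ^ (α j) := by
    unfold uQ
    push_cast
    rw [one_pow, mul_one, abs_of_nonneg (by positivity)]
  have h7 : ((∑ x ∈ TT l, pvQ (W j) (c j) ((x.2 : ℚ) / x.1) * uQ (α j) (β j) x : ℚ) : ℝ) =
      ∑ x ∈ TT l, tm (α j) (β j) (W j) (c j) x := by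
    rw [Rat.cast_sum]
    exact Finset.sum_congr rfl fun x _ => (tm_cast _ _ _ _ _).symm
  rw [h6, h7] at hj
  exact hj

/-- **Both exponents of the same order.** -/
theorem mid (l : ℕ) (hl : l.Prime) (B K ε : ℝ) (hε : 0 < ε) (hK : 0 < K) :
    ∃ δ : ℝ, 0 < δ ∧ ∃ P : ℕ, ∀ (p q W : ℕ) (c : ℕ → ℤ), P ≤ p → (q : ℝ) ≤ K * p →
      (p : ℝ) ≤ K * q → (W : ℝ) ≤ δ * p → (∀ i ≤ W, |(c i : ℝ)| ≤ B) → pv W c (1 / l) ≠ 0 →
      Real.exp (-(ε * p)) / (l : ℝ) ^ p ≤ |∑ x ∈ TT l, tm p q W c x| := by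
  by_contra hno
  push Not at hno
  have h := fun j : ℕ => hno (1 / ((j : ℝ) + 1)) (by positivity) j
  choose α β W c h1 h2 h3 h4 h5 h6 h7 using h
  have hα : Tendsto (fun j => (α j : ℝ)) atTop atTop :=
    tendsto_atTop_mono (fun j => (by exact_mod_cast h1 j : (j : ℝ) ≤ α j))
      tendsto_natCast_atTop_atTop
  have h8 := mid_seq l hl B K (ε / 2) (by positivity) hK α β W c hα h2 h3 (fun j => by
    have := h4 j
    rw [one_div, inv_mul_eq_div, le_div_iff₀ (by positivity)] at this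
    exact this) h5 h6
  have hαpos : ∀ᶠ j in (UU : Filter ℕ), (1 : ℝ) ≤ α j := ev_of_atTop (hα.eventually_ge_atTop 1)
  have h9 : ∀ᶠ j in (UU : Filter ℕ), False := by
    filter_upwards [h8, hαpos] with j e1 e2
    have e3 := h7 j
    have hl0 : (0 : ℝ) < l := by exact_mod_cast hl.pos
    have e4 : 0 < (l : ℝ) ^ (α j) := by positivity
    have e5 : |∑ x ∈ TT l, tm (α j) (β j) (W j) (c j) x| * Real.exp (ε / 2 * α j) <
        Real.exp (-(ε * α j)) / (l : ℝ) ^ (α j) * Real.exp (ε / 2 * α j) :=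
      mul_lt_mul_of_pos_right e3 (Real.exp_pos _)
    have e6 : Real.exp (-(ε * α j)) / (l : ℝ) ^ (α j) * Real.exp (ε / 2 * α j) =
        Real.exp (-(ε / 2 * α j)) / (l : ℝ) ^ (α j) := by
      rw [div_mul_eq_mul_div, ← Real.exp_add]
      congr 2
      ring
    have e7 : Real.exp (-(ε / 2 * α j)) < 1 := by
      rw [Real.exp_lt_one_iff]
      have : 0 < ε / 2 * α j := by positivity
      linarith
    have e8 : Real.exp (-(ε / 2 * α j)) / (l : ℝ) ^ (α j) < 1 / (l : ℝ) ^ (α j) := by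
      gcongr
    linarith
  obtain ⟨_, hf⟩ := h9.exists
  exact hf

end Pool.Agent.D0H51.DZ
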