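import Mathlib

/-!
# Elementary comparisons of growth
-/

set_option autoImplicit false

namespace Pool.Agent.D0H51.DZ

open Filter Asymptotics

lemma ev_rpow {α β : ℝ} (h : α < β) (C : ℝ) :
    ∀ᶠ N : ℕ in atTop, C * (N : ℝ) ^ α ≤ (N : ℝ) ^ β := by
  have h1 : Tendsto (fun N : ℕ => (N : ℝ) ^ (β - α)) atTop atTop :=
    (tendsto_rpow_atTop (sub_pos.2 h)).comp tendsto_natCast_atTop_atTop
  filter_upwards [h1.eventually_ge_atTop C, eventually_ge_atTop 1] with N h2 h3
  have hN : (0 : ℝ) < N := by exact_mod_cast h3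
  have h4 : (N : ℝ) ^ β = (N : ℝ) ^ (β - α) * (N : ℝ) ^ α := by
    rw [← Real.rpow_add hN]
    congr 1
    ring
  rw [h4]
  gcongr

lemma ev_rpow_ge {α : ℝ} (h : 0 < α) (C : ℝ) : ∀ᶠ N : ℕ in atTop, C ≤ (N : ℝ) ^ α :=
  ((tendsto_rpow_atTop h).comp tendsto_natCast_atTop_atTop).eventually_ge_atTop C

lemma ev_log {η : ℝ} (h : 0 < η) (A C : ℝ) (hA : 0 < A) :
    ∀ᶠ N : ℕ in atTop, C * Real.log (A * N) ≤ (N : ℝ) ^ η := by
  have h1 : ∀ᶠ x : ℝ in atTop, Real.log x ≤ x ^ (η / 2) := by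
    have := (isLittleO_log_rpow_atTop (half_pos h)).bound one_pos
    filter_upwards [this, eventually_ge_atTop 1] with x hx h1x
    rw [one_mul, Real.norm_eq_abs, Real.norm_eq_abs, abs_of_nonneg (Real.log_nonneg h1x),
      abs_of_nonneg (Real.rpow_nonneg (by linarith) _)] at hx
    exact hx
  have h2 : Tendsto (fun N : ℕ => A * (N : ℝ)) atTop atTop :=
    Tendsto.const_mul_atTop hA tendsto_natCast_atTop_atTop
  filter_upwards [h2.eventually h1, ev_rpow (show η / 2 < η by linarith) (|C| * A ^ (η / 2)),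
    h2.eventually_ge_atTop 1] with N h3 h4 h5
  have hl : 0 ≤ Real.log (A * N) := Real.log_nonneg h5
  calc C * Real.log (A * N) ≤ |C| * Real.log (A * N) := by
        gcongr
        exact le_abs_self C
    _ ≤ |C| * (A * N) ^ (η / 2) := by gcongr
    _ = |C| * A ^ (η / 2) * (N : ℝ) ^ (η / 2) := by
        rw [Real.mul_rpow hA.le (Nat.cast_nonneg _)]
        ring
    _ ≤ _ := h4

/-- the number of primes up to `N ^ α` -/
lemma ev_pi {α β : ℝ} (hα : 0 < α) (h : β < α) (C : ℝ) :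
    ∀ᶠ N : ℕ in atTop, C * (N : ℝ) ^ β < (Nat.primeCounting ⌊(N : ℝ) ^ α⌋₊ : ℝ) := by
  -- the intermediate exponent
  set r : ℝ := min ((α - β) / 2) (α / 2) with hr
  have hr0 : 0 < r := lt_min (by linarith) (by linarith)
  have h1 : ∀ᶠ x : ℝ in atTop, Real.log x ≤ x ^ (r / α) := by
    have := (isLittleO_log_rpow_atTop (div_pos hr0 hα)).bound one_pos
    filter_upwards [this, eventually_ge_atTop 1] with x hx h1x
    rw [one_mul, Real.norm_eq_abs, Real.norm_eq_abs, abs_of_nonneg (Real.log_nonneg h1x),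
      abs_of_nonneg (Real.rpow_nonneg (by linarith) _)] at hx
    exact hx
  have h2 : ∀ᶠ x : ℝ in atTop, Real.log (x + 2) ≤ x / 8 := by
    have hh := Real.isLittleO_log_id_atTop.bound (show (0 : ℝ) < 1 / 16 by norm_num)
    have hs : Tendsto (fun x : ℝ => x + 2) atTop atTop := tendsto_atTop_add_const_right _ _ tendsto_id
    filter_upwards [hs.eventually hh, eventually_ge_atTop 2] with x hx h1x
    rw [Real.norm_eq_abs, Real.norm_eq_abs, id, abs_of_nonneg (Real.log_nonneg (by linarith)),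
      abs_of_nonneg (by linarith : (0 : ℝ) ≤ x + 2)] at hx
    linarith
  have h3 : Tendsto (fun N : ℕ => (N : ℝ) ^ α) atTop atTop :=
    (tendsto_rpow_atTop hα).comp tendsto_natCast_atTop_atTop
  have hlt : β < α - r := by
    have := min_le_left ((α - β) / 2) (α / 2)
    rw [← hr] at this
    linarith
  filter_upwards [h3.eventually h1, h3.eventually h2, h3.eventually_ge_atTop 4,
    ev_rpow hlt (8 * (|C| + 1)), eventually_ge_atTop 1] with N k1 k2 k3 k4 k5
  have hN : (0 : ℝ) < N := by exact_mod_cast k5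
  set x : ℝ := (N : ℝ) ^ α with hx
  have hpi := Chebyshev.pi_ge' (x := x) (by linarith)
  refine lt_of_lt_of_le ?_ hpi
  have hlogx : 0 < Real.log x := Real.log_pos (by linarith)
  rw [lt_div_iff₀ hlogx]
  have e1 : x ^ (r / α) = (N : ℝ) ^ r := by
    rw [hx, ← Real.rpow_mul (Nat.cast_nonneg _)]
    congr 1
    field_simp
  rw [e1] at k1
  have e2 : (N : ℝ) ^ (α - r) * (N : ℝ) ^ r = x := by
    rw [hx, ← Real.rpow_add hN]
    congr 1
    ring
  have hNβ : 0 < (N : ℝ) ^ β := Real.rpow_pos_of_pos hN _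
  have hNr : 0 < (N : ℝ) ^ r := Real.rpow_pos_of_pos hN _
  have e3 : C * (N : ℝ) ^ β * Real.log x < x / 8 := by
    calc C * (N : ℝ) ^ β * Real.log x ≤ |C| * (N : ℝ) ^ β * Real.log x := by
          gcongr
          exact le_abs_self C
      _ < (|C| + 1) * (N : ℝ) ^ β * Real.log x := by
          apply mul_lt_mul_of_pos_right _ hlogx
          apply mul_lt_mul_of_pos_right _ hNβ
          linarith
      _ ≤ (|C| + 1) * (N : ℝ) ^ β * (N : ℝ) ^ r := by gcongr
      _ = (8 * (|C| + 1) * (N : ℝ) ^ β) * (N : ℝ) ^ r / 8 := by ring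
      _ ≤ (N : ℝ) ^ (α - r) * (N : ℝ) ^ r / 8 := by gcongr
      _ = x / 8 := by rw [e2]
  have e4 : x / 4 ≤ (x - 1) * Real.log 2 - Real.log (x + 2) := by
    have := Real.log_two_gt_d9
    nlinarith
  linarith

end Pool.Agent.D0H51.DZ
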