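import Mathlib
import Pool.Agent.D0H51.DZ.Ser
import Pool.Agent.D0H51.DZ.Mid

/-!
# The sum over the pairs up to `l`, exponents of different orders
-/

set_option autoImplicit false

namespace Pool.Agent.D0H51.DZ

open Finset

lemma dominant {ι : Type*} [DecidableEq ι] (T : Finset ι) (f : ι → ℝ) (x0 : ι) (hx0 : x0 ∈ T)
    (A R : ℝ) (hR0 : 0 ≤ R) (hf : ∀ x ∈ T, x ≠ x0 → |f x| ≤ R) (hR : (T.card : ℝ) * R ≤ A / 2)
    (hA : A ≤ |f x0|) : A / 2 ≤ |∑ x ∈ T, f x| := by
  rw [← Finset.add_sum_erase T f hx0]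
  have h1 : |∑ x ∈ T.erase x0, f x| ≤ (T.card : ℝ) * R := by
    refine (abs_sum_le_sum_abs _ _).trans ?_
    refine (sum_le_sum (f := fun x => |f x|) (g := fun _ => R) fun x hx =>
      hf x (mem_of_mem_erase hx) (ne_of_mem_erase hx)).trans ?_
    rw [sum_const, nsmul_eq_mul]
    have h2 : ((T.erase x0).card : ℝ) ≤ T.card := by
      exact_mod_cast card_le_card (erase_subset _ _)
    gcongr
  have h2 := abs_sub_abs_le_abs_sub (f x0) (-∑ x ∈ T.erase x0, f x)
  rw [sub_neg_eq_add, abs_neg] at h2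
  linarith

lemma ratio_pow {l m p : ℕ} (hm : 1 ≤ m) (hml : m ≤ l) :
    1 / ((m : ℝ) + 1) ^ p ≤ Real.exp (-(Real.log (((l : ℝ) + 1) / l) * p)) / (m : ℝ) ^ p := by
  have hm0 : (0 : ℝ) < m := by exact_mod_cast hm
  have hl0 : (0 : ℝ) < l := by
    have : 0 < l := by omega
    exact_mod_cast this
  have hml' : (m : ℝ) ≤ l := by exact_mod_cast hml
  have h1 : Real.exp (-(Real.log (((l : ℝ) + 1) / l) * p)) = ((l : ℝ) / (l + 1)) ^ p := by
    rw [← Real.exp_log (show 0 < ((l : ℝ) / (l + 1)) ^ p by positivity), Real.log_pow]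
    congr 1
    rw [Real.log_div (by positivity) (by positivity), Real.log_div (by positivity) (by positivity)]
    ring
  rw [h1, le_div_iff₀ (by positivity), div_mul_eq_mul_div, one_mul, ← div_pow]
  apply pow_le_pow_left₀ (by positivity)
  rw [div_le_div_iff₀ (by positivity) (by positivity)]
  nlinarith

/-- **The second exponent is much larger than the first one.** -/
theorem end1 (l : ℕ) (hl2 : 2 ≤ l) (B ε : ℝ) (hB : 0 ≤ B) (hε : 0 < ε) :
    ∃ K δ : ℝ, 0 < K ∧ 0 < δ ∧ ∃ P : ℕ, ∀ (p q W : ℕ) (c : ℕ → ℤ), P ≤ p → K * p ≤ q →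
      (W : ℝ) ≤ δ * p → (∀ i ≤ W, |(c i : ℝ)| ≤ B) → pv W c (1 / l) ≠ 0 →
      Real.exp (-(ε * p)) / (l : ℝ) ^ p ≤ |∑ x ∈ TT l, tm p q W c x| := by
  have hl0 : (0 : ℝ) < l := by
    have : 0 < l := by omega
    exact_mod_cast this
  set η := Real.log (((l : ℝ) + 1) / l) with hη
  have hη0 : 0 < η := by
    apply Real.log_pos
    rw [lt_div_iff₀ hl0]
    linarith
  set lg := Real.log l with hlg
  have hlg0 : 0 < lg := Real.log_pos (by exact_mod_cast (by omega : 1 < l))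
  have hl2' := Real.log_pos one_lt_two
  set δ := min (min (η / (2 * lg)) (ε / (2 * lg))) 1 with hδ
  have hδ0 : 0 < δ := by
    rw [hδ]
    refine lt_min (lt_min (by positivity) (by positivity)) one_pos
  set C := B * ((l : ℝ) + 1) ^ 2 with hC
  have hC0 : 0 ≤ C := by positivity
  obtain ⟨P1, hP1⟩ := ev_small C (η / 2) hC0 (by positivity)
  obtain ⟨P2, hP2⟩ := ev_small C 1 hC0 one_pos
  obtain ⟨P3, hP3⟩ := ev_small 1 (ε / 2) zero_le_one (by positivity)
  refine ⟨(2 * lg + 1) / Real.log 2, δ, by positivity, hδ0, P1 + P2 + P3, ?_⟩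
  intro p q W c hp hq hW hc hne
  have hpR : ((P1 + P2 + P3 : ℕ) : ℝ) ≤ p := by exact_mod_cast hp
  push_cast at hpR
  have hn1 : (0 : ℝ) ≤ P1 := Nat.cast_nonneg _
  have hn2 : (0 : ℝ) ≤ P2 := Nat.cast_nonneg _
  have hn3 : (0 : ℝ) ≤ P3 := Nat.cast_nonneg _
  have k1 := hP1 p (by linarith)
  have k2 := hP2 p (by linarith)
  have k3 := hP3 p (by linarith)
  have hp0 : (0 : ℝ) ≤ p := Nat.cast_nonneg _
  have hWp : (W : ℝ) ≤ p := by
    refine hW.trans ?_
    have : δ ≤ 1 := min_le_right _ _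
    nlinarith
  have hWη : (W : ℝ) * lg ≤ η / 2 * p := by
    have h1 : δ ≤ η / (2 * lg) := (min_le_left _ _).trans (min_le_left _ _)
    have h2 : δ * lg ≤ η / 2 := by
      calc δ * lg ≤ η / (2 * lg) * lg := by gcongr
        _ = η / 2 := by field_simp
    calc (W : ℝ) * lg ≤ δ * p * lg := by gcongr
      _ = δ * lg * p := by ring
      _ ≤ η / 2 * p := by gcongr
  have hWε : (W : ℝ) * lg ≤ ε / 2 * p := by
    have h1 : δ ≤ ε / (2 * lg) := (min_le_left _ _).trans (min_le_right _ _)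
    have h2 : δ * lg ≤ ε / 2 := by
      calc δ * lg ≤ ε / (2 * lg) * lg := by gcongr
        _ = ε / 2 := by field_simp
    calc (W : ℝ) * lg ≤ δ * p * lg := by gcongr
      _ = δ * lg * p := by ring
      _ ≤ ε / 2 * p := by gcongr
  -- the smallest first component
  classical
  have hex : ∃ m : ℕ, 2 ≤ m ∧ pv W c (1 / m) ≠ 0 := ⟨l, hl2, hne⟩
  set m1 := Nat.find hex with hm1
  obtain ⟨hm12, hm1ne⟩ := Nat.find_spec hex
  rw [← hm1] at hm12 hm1ne
  have hm1l : m1 ≤ l := Nat.find_le ⟨hl2, hne⟩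
  have hmin : ∀ m, 2 ≤ m → m < m1 → pv W c (1 / m) = 0 := by
    intro m h1 h2
    by_contra h3
    exact Nat.find_min hex h2 ⟨h1, h3⟩
  have hm10 : (0 : ℝ) < m1 := by
    have : 0 < m1 := by omega
    exact_mod_cast this
  have hm1W : (m1 : ℝ) ^ W ≤ Real.exp (W * lg) := by
    rw [← Real.exp_log (pow_pos hm10 W), Real.log_pow]
    apply Real.exp_le_exp.2
    have : Real.log m1 ≤ lg := Real.log_le_log hm10 (by exact_mod_cast hm1l)
    gcongr
  have hx0 : ((m1, 1) : ℕ × ℕ) ∈ TT l := by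
    rw [mem_TT]
    simp only
    omega
  set A : ℝ := 1 / ((m1 : ℝ) ^ W * (m1 : ℝ) ^ p) with hA
  have hA0 : 0 < A := by positivity
  set R : ℝ := B * (W + 1) * (1 / ((m1 : ℝ) + 1) ^ p) + B * (W + 1) * (1 / (2 : ℝ) ^ q) with hR
  have hR0 : 0 ≤ R := by positivity
  have hother : ∀ x ∈ TT l, x ≠ ((m1, 1) : ℕ × ℕ) → |tm p q W c x| ≤ R := by
    intro x hx hxne
    rw [mem_TT] at hx
    obtain ⟨h1, h2, h3⟩ := hx
    have hb := abs_tm_le (p := p) (q := q) hc h1 h2
    have hx10 : (0 : ℝ) < x.1 := by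
      have : 0 < x.1 := by omega
      exact_mod_cast this
    have hx20 : (0 : ℝ) < x.2 := by exact_mod_cast h1
    by_cases h4 : x.2 = 1
    · have h5 : x.1 ≠ m1 := by
        intro h5
        exact hxne (Prod.ext h5 h4)
      rcases lt_or_gt_of_ne h5 with h6 | h6
      · have h7 : tm p q W c x = 0 := by
          unfold tm
          rw [h4, Nat.cast_one, hmin x.1 (by omega) h6, zero_div]
        rw [h7, abs_zero]
        exact hR0
      · refine hb.trans ?_
        rw [h4, Nat.cast_one, one_pow, mul_one, hR]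
        have h7 : ((m1 : ℝ) + 1) ^ p ≤ (x.1 : ℝ) ^ p := by
          gcongr
          exact_mod_cast h6
        have h8 : B * (W + 1) / (x.1 : ℝ) ^ p ≤ B * (W + 1) * (1 / ((m1 : ℝ) + 1) ^ p) := by
          rw [mul_one_div]
          gcongr
        have h9 : 0 ≤ B * (W + 1) * (1 / (2 : ℝ) ^ q) := by positivity
        linarith
    · refine hb.trans ?_
      rw [hR]
      have h5 : (2 : ℝ) ^ q ≤ (x.1 : ℝ) ^ p * (x.2 : ℝ) ^ q := by
        have h6 : (2 : ℝ) ^ q ≤ (x.2 : ℝ) ^ q := by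
          gcongr
          have : 2 ≤ x.2 := by omega
          exact_mod_cast this
        have h7 : (1 : ℝ) ≤ (x.1 : ℝ) ^ p := one_le_pow₀ (by
          have : 1 ≤ x.1 := by omega
          exact_mod_cast this)
        have h8 : 0 < (x.2 : ℝ) ^ q := by positivity
        nlinarith
      have h8 : B * (W + 1) / ((x.1 : ℝ) ^ p * (x.2 : ℝ) ^ q) ≤
          B * (W + 1) * (1 / (2 : ℝ) ^ q) := by
        rw [mul_one_div]
        gcongr
      have h9 : 0 ≤ B * (W + 1) * (1 / ((m1 : ℝ) + 1) ^ p) := by positivity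
      linarith
  have hmain : A ≤ |tm p q W c ((m1, 1) : ℕ × ℕ)| := by
    unfold tm
    simp only
    rw [abs_div, Nat.cast_one, one_pow, mul_one, abs_of_pos (show (0 : ℝ) < (m1 : ℝ) ^ p by
      positivity), hA]
    have h1 := pv_ge (W := W) (c := c) (m := m1) (n := 1) (by omega)
      (by rw [Nat.cast_one]; exact hm1ne)
    rw [Nat.cast_one] at h1
    rw [← div_div]
    gcongr
  have hcard : ((TT l).card : ℝ) ≤ ((l : ℝ) + 1) ^ 2 := by exact_mod_cast card_TT l
  have hRA : ((TT l).card : ℝ) * R ≤ A / 2 := by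
    have h1 : ((TT l).card : ℝ) * R ≤ C * (p + 1) * (1 / ((m1 : ℝ) + 1) ^ p) +
        C * (p + 1) * (1 / (2 : ℝ) ^ q) := by
      calc ((TT l).card : ℝ) * R ≤ ((l : ℝ) + 1) ^ 2 * R := by gcongr
        _ = C * (W + 1) * (1 / ((m1 : ℝ) + 1) ^ p) + C * (W + 1) * (1 / (2 : ℝ) ^ q) := by
            rw [hR, hC]; ring
        _ ≤ _ := by gcongr
    have h2 : C * (p + 1) * (1 / ((m1 : ℝ) + 1) ^ p) ≤ A / 4 := by
      have h3 := ratio_pow (l := l) (m := m1) (p := p) (by omega) hm1l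
      rw [← hη] at h3
      calc C * (p + 1) * (1 / ((m1 : ℝ) + 1) ^ p)
          ≤ C * (p + 1) * (Real.exp (-(η * p)) / (m1 : ℝ) ^ p) := by gcongr
        _ = C * (p + 1) * Real.exp (-(η / 2 * p)) *
            (Real.exp (-(η / 2 * p)) / (m1 : ℝ) ^ p) := by
            have : Real.exp (-(η * p)) = Real.exp (-(η / 2 * p)) * Real.exp (-(η / 2 * p)) := by
              rw [← Real.exp_add]; ring_nf
            rw [this]
            ring
        _ ≤ 1 / 4 * (1 / (m1 : ℝ) ^ W / (m1 : ℝ) ^ p) := by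
            have h4 : Real.exp (-(η / 2 * p)) ≤ 1 / (m1 : ℝ) ^ W := by
              rw [Real.exp_neg, ← one_div]
              apply one_div_le_one_div_of_le (by positivity)
              exact hm1W.trans (Real.exp_le_exp.2 hWη)
            have h5 : 0 ≤ C * (p + 1) * Real.exp (-(η / 2 * p)) := by positivity
            gcongr
        _ = A / 4 := by rw [hA]; field_simp
    have h3 : C * (p + 1) * (1 / (2 : ℝ) ^ q) ≤ A / 4 := by
      have h4 : 1 / (2 : ℝ) ^ q ≤ Real.exp (-(1 * p)) * Real.exp (-(2 * lg * p)) := by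
        rw [← Real.exp_add, ← Real.exp_log (show (0 : ℝ) < 1 / 2 ^ q by positivity)]
        apply Real.exp_le_exp.2
        rw [Real.log_div one_ne_zero (by positivity), Real.log_one, Real.log_pow]
        have h5 : (2 * lg + 1) * p ≤ q * Real.log 2 := by
          rw [div_mul_eq_mul_div, div_le_iff₀ hl2'] at hq
          exact hq
        linarith
      have h5 : Real.exp (-(2 * lg * p)) ≤ A := by
        rw [hA, Real.exp_neg, ← one_div]
        apply one_div_le_one_div_of_le (by positivity)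
        have h6 : (m1 : ℝ) ^ p ≤ Real.exp (lg * p) := by
          rw [← Real.exp_log (pow_pos hm10 p), Real.log_pow]
          apply Real.exp_le_exp.2
          have : Real.log m1 ≤ lg := Real.log_le_log hm10 (by exact_mod_cast hm1l)
          nlinarith
        have h7 : (m1 : ℝ) ^ W ≤ Real.exp (lg * p) := by
          refine hm1W.trans (Real.exp_le_exp.2 ?_)
          nlinarith
        calc (m1 : ℝ) ^ W * (m1 : ℝ) ^ p ≤ Real.exp (lg * p) * Real.exp (lg * p) := by gcongr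
          _ = Real.exp (2 * lg * p) := by rw [← Real.exp_add]; ring_nf
      calc C * (p + 1) * (1 / (2 : ℝ) ^ q)
          ≤ C * (p + 1) * (Real.exp (-(1 * p)) * Real.exp (-(2 * lg * p))) := by gcongr
        _ = (C * (p + 1) * Real.exp (-(1 * p))) * Real.exp (-(2 * lg * p)) := by ring
        _ ≤ 1 / 4 * A := by gcongr
        _ = A / 4 := by ring
    linarith
  have hfin := dominant (TT l) (fun x => tm p q W c x) (m1, 1) hx0 A R hR0 hother hRA hmain
  refine le_trans ?_ hfin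
  rw [hA, div_div]
  have h1 : (m1 : ℝ) ^ p ≤ (l : ℝ) ^ p := by
    gcongr
  have h2 : (m1 : ℝ) ^ W ≤ Real.exp (ε / 2 * p) := hm1W.trans (Real.exp_le_exp.2 hWε)
  have h3 : (2 : ℝ) ≤ Real.exp (ε / 2 * p) := by
    have h4 : Real.exp (-(ε / 2 * p)) ≤ 1 / 4 := by
      have h5 : 0 < Real.exp (-(ε / 2 * p)) := Real.exp_pos _
      nlinarith
    rw [Real.exp_neg, ← one_div, div_le_div_iff₀ (Real.exp_pos _) (by norm_num)] at h4
    linarith
  rw [Real.exp_neg, ← one_div, div_div]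
  apply one_div_le_one_div_of_le (by positivity)
  calc (m1 : ℝ) ^ W * (m1 : ℝ) ^ p * 2 ≤ Real.exp (ε / 2 * p) * (l : ℝ) ^ p *
        Real.exp (ε / 2 * p) := by gcongr
    _ = Real.exp (ε * p) * (l : ℝ) ^ p := by
        have : Real.exp (ε * p) = Real.exp (ε / 2 * p) * Real.exp (ε / 2 * p) := by
          rw [← Real.exp_add]; ring_nf
        rw [this]
        ring

/-- **The first exponent is much larger than the second one.** -/
theorem end2 (l : ℕ) (hl2 : 2 ≤ l) (B ε : ℝ) (hB : 0 ≤ B) (hε : 0 < ε) :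
    ∃ K δ : ℝ, 0 < K ∧ 0 < δ ∧ ∃ P : ℕ, ∀ (p q W : ℕ) (c : ℕ → ℤ), P ≤ q → K * q ≤ p →
      (W : ℝ) ≤ δ * q → (∀ i ≤ W, |(c i : ℝ)| ≤ B) → pv W c (1 / l) ≠ 0 →
      Real.exp (-(ε * p)) / (l : ℝ) ^ p ≤ |∑ x ∈ TT l, tm p q W c x| := by
  have hl0 : (0 : ℝ) < l := by
    have : 0 < l := by omega
    exact_mod_cast this
  set η := Real.log (((l : ℝ) + 1) / l) with hη
  have hη0 : 0 < η := by
    apply Real.log_pos
    rw [lt_div_iff₀ hl0]
    linarith
  set lg := Real.log l with hlg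
  have hlg0 : 0 < lg := Real.log_pos (by exact_mod_cast (by omega : 1 < l))
  set δ := min (η / (2 * lg)) 1 with hδ
  have hδ0 : 0 < δ := by
    rw [hδ]
    refine lt_min (by positivity) one_pos
  set C := B * ((l : ℝ) + 1) ^ 2 with hC
  have hC0 : 0 ≤ C := by positivity
  obtain ⟨P1, hP1⟩ := ev_small C (η / 2) hC0 (by positivity)
  obtain ⟨P2, hP2⟩ := ev_small C 1 hC0 one_pos
  set K := (2 * lg + 1) / η + (2 * lg + 1) / ε with hK
  have hK0 : 0 < K := by positivity
  have hK1 : 2 * lg + 1 ≤ η * K := by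
    rw [hK, mul_add, mul_div_cancel₀ _ hη0.ne']
    have : 0 ≤ η * ((2 * lg + 1) / ε) := by positivity
    linarith
  have hK2 : 2 * lg + 1 ≤ ε * K := by
    rw [hK, mul_add, mul_div_cancel₀ _ hε.ne']
    have : 0 ≤ ε * ((2 * lg + 1) / η) := by positivity
    linarith
  refine ⟨K, δ, hK0, hδ0, P1 + P2 + 1, ?_⟩
  intro p q W c hq hp hW hc hne
  have hqR : ((P1 + P2 + 1 : ℕ) : ℝ) ≤ q := by exact_mod_cast hq
  push_cast at hqR
  have hn1 : (0 : ℝ) ≤ P1 := Nat.cast_nonneg _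
  have hn2 : (0 : ℝ) ≤ P2 := Nat.cast_nonneg _
  have k1 := hP1 q (by linarith)
  have k2 := hP2 q (by linarith)
  have hq1 : (1 : ℝ) ≤ q := by linarith
  have hWq : (W : ℝ) ≤ q := by
    refine hW.trans ?_
    have : δ ≤ 1 := min_le_right _ _
    nlinarith
  have hWη : (W : ℝ) * lg ≤ η / 2 * q := by
    have h1 : δ ≤ η / (2 * lg) := min_le_left _ _
    have h2 : δ * lg ≤ η / 2 := by
      calc δ * lg ≤ η / (2 * lg) * lg := by gcongr
        _ = η / 2 := by field_simp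
    calc (W : ℝ) * lg ≤ δ * q * lg := by gcongr
      _ = δ * lg * q := by ring
      _ ≤ η / 2 * q := by gcongr
  classical
  have hex : ∃ m : ℕ, ∃ n : ℕ, 1 ≤ n ∧ n < m ∧ pv W c ((n : ℝ) / m) ≠ 0 :=
    ⟨l, 1, le_rfl, by omega, by rw [Nat.cast_one]; exact hne⟩
  set m1 := Nat.find hex with hm1
  have hex2 := Nat.find_spec hex
  rw [← hm1] at hex2
  set n1 := Nat.find hex2 with hn1'
  obtain ⟨hn11, hn1m, hn1ne⟩ := Nat.find_spec hex2
  rw [← hn1'] at hn11 hn1m hn1ne
  have hm1l : m1 ≤ l := Nat.find_le ⟨1, le_rfl, by omega, by rw [Nat.cast_one]; exact hne⟩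
  have hmin : ∀ m n, m < m1 → 1 ≤ n → n < m → pv W c ((n : ℝ) / m) = 0 := by
    intro m n h1 h2 h3
    by_contra h4
    exact Nat.find_min hex h1 ⟨n, h2, h3, h4⟩
  have hmin2 : ∀ n, n < n1 → 1 ≤ n → pv W c ((n : ℝ) / m1) = 0 := by
    intro n h1 h2
    by_contra h4
    exact Nat.find_min hex2 h1 ⟨h2, by omega, h4⟩
  have hm10 : (0 : ℝ) < m1 := by
    have : 0 < m1 := by omega
    exact_mod_cast this
  have hn10 : (0 : ℝ) < n1 := by exact_mod_cast hn11
  have hlogm : Real.log m1 ≤ lg := Real.log_le_log hm10 (by exact_mod_cast hm1l)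
  have hlogn : Real.log n1 ≤ lg := Real.log_le_log hn10 (by exact_mod_cast (by omega : n1 ≤ l))
  have hm1W : (m1 : ℝ) ^ W ≤ Real.exp (W * lg) := by
    rw [← Real.exp_log (pow_pos hm10 W), Real.log_pow]
    apply Real.exp_le_exp.2
    gcongr
  have hn1q : (n1 : ℝ) ^ q ≤ Real.exp (lg * q) := by
    rw [← Real.exp_log (pow_pos hn10 q), Real.log_pow]
    apply Real.exp_le_exp.2
    nlinarith
  have hm1W' : (m1 : ℝ) ^ W ≤ Real.exp (lg * q) := by
    refine hm1W.trans (Real.exp_le_exp.2 ?_)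
    nlinarith
  have hx0 : ((m1, n1) : ℕ × ℕ) ∈ TT l := by
    rw [mem_TT]
    simp only
    omega
  set A : ℝ := 1 / ((m1 : ℝ) ^ W * ((m1 : ℝ) ^ p * (n1 : ℝ) ^ q)) with hA
  have hA0 : 0 < A := by positivity
  set R : ℝ := B * (W + 1) * (1 / ((m1 : ℝ) ^ p * ((n1 : ℝ) + 1) ^ q)) +
    B * (W + 1) * (1 / ((m1 : ℝ) + 1) ^ p) with hR
  have hR0 : 0 ≤ R := by positivity
  have hother : ∀ x ∈ TT l, x ≠ ((m1, n1) : ℕ × ℕ) → |tm p q W c x| ≤ R := by
    intro x hx hxne
    rw [mem_TT] at hx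
    obtain ⟨h1, h2, h3⟩ := hx
    have hb := abs_tm_le (p := p) (q := q) hc h1 h2
    have hx10 : (0 : ℝ) < x.1 := by
      have : 0 < x.1 := by omega
      exact_mod_cast this
    have hx20 : (0 : ℝ) < x.2 := by exact_mod_cast h1
    have hzero : pv W c ((x.2 : ℝ) / x.1) = 0 → |tm p q W c x| ≤ R := by
      intro h7
      unfold tm
      rw [h7, zero_div, abs_zero]
      exact hR0
    have g1 : 0 ≤ B * (W + 1) * (1 / ((m1 : ℝ) ^ p * ((n1 : ℝ) + 1) ^ q)) := by positivity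
    have g2 : 0 ≤ B * (W + 1) * (1 / ((m1 : ℝ) + 1) ^ p) := by positivity
    rcases lt_trichotomy x.1 m1 with h4 | h4 | h4
    · exact hzero (hmin _ _ h4 h1 h2)
    · rcases lt_trichotomy x.2 n1 with h5 | h5 | h5
      · apply hzero
        rw [h4]
        exact hmin2 _ h5 h1
      · exact absurd (Prod.ext h4 h5) hxne
      · refine hb.trans ?_
        have h6 : (m1 : ℝ) ^ p * ((n1 : ℝ) + 1) ^ q ≤ (x.1 : ℝ) ^ p * (x.2 : ℝ) ^ q := by
          rw [h4]
          gcongr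
          exact_mod_cast h5
        have h8 : B * (W + 1) / ((x.1 : ℝ) ^ p * (x.2 : ℝ) ^ q) ≤
            B * (W + 1) * (1 / ((m1 : ℝ) ^ p * ((n1 : ℝ) + 1) ^ q)) := by
          rw [mul_one_div]
          gcongr
        rw [hR]
        linarith
    · refine hb.trans ?_
      have h6 : ((m1 : ℝ) + 1) ^ p ≤ (x.1 : ℝ) ^ p * (x.2 : ℝ) ^ q := by
        have h7 : ((m1 : ℝ) + 1) ^ p ≤ (x.1 : ℝ) ^ p := by
          gcongr
          exact_mod_cast h4
        have h8 : (1 : ℝ) ≤ (x.2 : ℝ) ^ q := one_le_pow₀ (by exact_mod_cast h1)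
        have h9 : 0 < (x.1 : ℝ) ^ p := by positivity
        nlinarith
      have h8 : B * (W + 1) / ((x.1 : ℝ) ^ p * (x.2 : ℝ) ^ q) ≤
          B * (W + 1) * (1 / ((m1 : ℝ) + 1) ^ p) := by
        rw [mul_one_div]
        gcongr
      rw [hR]
      linarith
  have hmain : A ≤ |tm p q W c ((m1, n1) : ℕ × ℕ)| := by
    unfold tm
    simp only
    rw [abs_div, abs_of_pos (show (0 : ℝ) < (m1 : ℝ) ^ p * (n1 : ℝ) ^ q by positivity), hA]
    have h1 := pv_ge (W := W) (c := c) (m := m1) (n := n1) (by omega) hn1ne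
    rw [← div_div]
    gcongr
  have hcard : ((TT l).card : ℝ) ≤ ((l : ℝ) + 1) ^ 2 := by exact_mod_cast card_TT l
  have hRA : ((TT l).card : ℝ) * R ≤ A / 2 := by
    have h1 : ((TT l).card : ℝ) * R ≤ C * (q + 1) * (1 / ((m1 : ℝ) ^ p * ((n1 : ℝ) + 1) ^ q)) +
        C * (q + 1) * (1 / ((m1 : ℝ) + 1) ^ p) := by
      calc ((TT l).card : ℝ) * R ≤ ((l : ℝ) + 1) ^ 2 * R := by gcongr
        _ = C * (W + 1) * (1 / ((m1 : ℝ) ^ p * ((n1 : ℝ) + 1) ^ q)) +
            C * (W + 1) * (1 / ((m1 : ℝ) + 1) ^ p) := by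
            rw [hR, hC]; ring
        _ ≤ _ := by gcongr
    have h2 : C * (q + 1) * (1 / ((m1 : ℝ) ^ p * ((n1 : ℝ) + 1) ^ q)) ≤ A / 4 := by
      have h3 := ratio_pow (l := l) (m := n1) (p := q) hn11 (by omega)
      rw [← hη] at h3
      calc C * (q + 1) * (1 / ((m1 : ℝ) ^ p * ((n1 : ℝ) + 1) ^ q))
          = C * (q + 1) * (1 / ((n1 : ℝ) + 1) ^ q) * (1 / (m1 : ℝ) ^ p) := by field_simp
        _ ≤ C * (q + 1) * (Real.exp (-(η * q)) / (n1 : ℝ) ^ q) * (1 / (m1 : ℝ) ^ p) := by gcongr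
        _ = C * (q + 1) * Real.exp (-(η / 2 * q)) *
            (Real.exp (-(η / 2 * q)) / (n1 : ℝ) ^ q * (1 / (m1 : ℝ) ^ p)) := by
            have : Real.exp (-(η * q)) = Real.exp (-(η / 2 * q)) * Real.exp (-(η / 2 * q)) := by
              rw [← Real.exp_add]; ring_nf
            rw [this]
            ring
        _ ≤ 1 / 4 * (1 / (m1 : ℝ) ^ W / (n1 : ℝ) ^ q * (1 / (m1 : ℝ) ^ p)) := by
            have h4 : Real.exp (-(η / 2 * q)) ≤ 1 / (m1 : ℝ) ^ W := by
              rw [Real.exp_neg, ← one_div]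
              apply one_div_le_one_div_of_le (by positivity)
              exact hm1W.trans (Real.exp_le_exp.2 hWη)
            have h5 : 0 ≤ C * (q + 1) * Real.exp (-(η / 2 * q)) := by positivity
            gcongr
        _ = A / 4 := by rw [hA]; field_simp
    have h3 : C * (q + 1) * (1 / ((m1 : ℝ) + 1) ^ p) ≤ A / 4 := by
      have h4 := ratio_pow (l := l) (m := m1) (p := p) (by omega) hm1l
      rw [← hη] at h4
      have h5 : Real.exp (-(η * p)) ≤ Real.exp (-(1 * q)) * Real.exp (-(2 * lg * q)) := by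
        rw [← Real.exp_add]
        apply Real.exp_le_exp.2
        have h6 : (2 * lg + 1) * q ≤ η * p := by
          calc (2 * lg + 1) * q ≤ η * K * q := by gcongr
            _ = η * (K * q) := by ring
            _ ≤ η * p := by gcongr
        linarith
      have h6 : Real.exp (-(2 * lg * q)) ≤ 1 / ((m1 : ℝ) ^ W * (n1 : ℝ) ^ q) := by
        rw [Real.exp_neg, ← one_div]
        apply one_div_le_one_div_of_le (by positivity)
        calc (m1 : ℝ) ^ W * (n1 : ℝ) ^ q ≤ Real.exp (lg * q) * Real.exp (lg * q) := by gcongr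
          _ = Real.exp (2 * lg * q) := by rw [← Real.exp_add]; ring_nf
      calc C * (q + 1) * (1 / ((m1 : ℝ) + 1) ^ p)
          ≤ C * (q + 1) * (Real.exp (-(η * p)) / (m1 : ℝ) ^ p) := by gcongr
        _ ≤ C * (q + 1) * (Real.exp (-(1 * q)) * Real.exp (-(2 * lg * q)) / (m1 : ℝ) ^ p) := by
            gcongr
        _ = (C * (q + 1) * Real.exp (-(1 * q))) * (Real.exp (-(2 * lg * q)) / (m1 : ℝ) ^ p) := by
            ring
        _ ≤ 1 / 4 * (1 / ((m1 : ℝ) ^ W * (n1 : ℝ) ^ q) / (m1 : ℝ) ^ p) := by gcongr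
        _ = A / 4 := by rw [hA]; field_simp
    linarith
  have hfin := dominant (TT l) (fun x => tm p q W c x) (m1, n1) hx0 A R hR0 hother hRA hmain
  refine le_trans ?_ hfin
  rw [hA, div_div]
  have h1 : (m1 : ℝ) ^ p ≤ (l : ℝ) ^ p := by
    gcongr
  have h2 : Real.exp (lg * q) * Real.exp (lg * q) * 2 ≤ Real.exp (ε * p) := by
    have h3 : (2 : ℝ) ≤ Real.exp 1 := by
      have := Real.add_one_le_exp (1 : ℝ)
      linarith
    calc Real.exp (lg * q) * Real.exp (lg * q) * 2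
        ≤ Real.exp (lg * q) * Real.exp (lg * q) * Real.exp 1 := by gcongr
      _ = Real.exp (2 * lg * q + 1) := by rw [← Real.exp_add, ← Real.exp_add]; ring_nf
      _ ≤ Real.exp (ε * p) := by
          apply Real.exp_le_exp.2
          calc 2 * lg * q + 1 ≤ (2 * lg + 1) * q := by nlinarith
            _ ≤ ε * K * q := by gcongr
            _ = ε * (K * q) := by ring
            _ ≤ ε * p := by gcongr
  rw [Real.exp_neg, ← one_div, div_div]
  apply one_div_le_one_div_of_le (by positivity)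
  calc (m1 : ℝ) ^ W * ((m1 : ℝ) ^ p * (n1 : ℝ) ^ q) * 2
      ≤ Real.exp (lg * q) * ((l : ℝ) ^ p * Real.exp (lg * q)) * 2 := by gcongr
    _ = Real.exp (lg * q) * Real.exp (lg * q) * 2 * (l : ℝ) ^ p := by ring
    _ ≤ Real.exp (ε * p) * (l : ℝ) ^ p := by gcongr

end Pool.Agent.D0H51.DZ
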