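import Mathlib
import Pool.Agent.D0H51.DZ.Ser
import Pool.Agent.D0H51.DZ.Mid
import Pool.Agent.D0H51.DZ.Ends

/-!
# Linear windows, bounded coefficients
-/

set_option autoImplicit false

namespace Pool.Agent.D0H51.DZ

open Finset

/-- the value at `k` of the Riemann zeta function -/
noncomputable def zz (k : ℕ) : ℝ := ∑' m : ℕ, 1 / ((m + 1 : ℕ) : ℝ) ^ k

lemma zz_ge {k : ℕ} (hk : 2 ≤ k) : 1 ≤ zz k := by
  unfold zz
  have hs : Summable fun m : ℕ => 1 / ((m + 1 : ℕ) : ℝ) ^ k :=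
    (summable_nat_add_iff 1).2 (Real.summable_one_div_nat_pow.2 (by omega))
  have h := hs.sum_le_tsum {0} (fun m _ => by positivity)
  simpa using h

/-- the three ranges together -/
theorem allr (l : ℕ) (hl : l.Prime) (B ε : ℝ) (hB : 0 ≤ B) (hε : 0 < ε) :
    ∃ δ : ℝ, 0 < δ ∧ ∃ P : ℕ, ∀ (p q W : ℕ) (c : ℕ → ℤ), P ≤ p → P ≤ q →
      (W : ℝ) ≤ δ * p → (W : ℝ) ≤ δ * q → (∀ i ≤ W, |(c i : ℝ)| ≤ B) → pv W c (1 / l) ≠ 0 →
      Real.exp (-(ε * p)) / (l : ℝ) ^ p ≤ |∑ x ∈ TT l, tm p q W c x| := by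
  obtain ⟨K1, δ1, hK1, hδ1, P1, h1⟩ := end1 l hl.two_le B ε hB hε
  obtain ⟨K2, δ2, hK2, hδ2, P2, h2⟩ := end2 l hl.two_le B ε hB hε
  obtain ⟨δ3, hδ3, P3, h3⟩ := mid l hl B (max K1 K2) ε hε (lt_max_of_lt_left hK1)
  refine ⟨min δ1 (min δ2 δ3), lt_min hδ1 (lt_min hδ2 hδ3), max P1 (max P2 P3), ?_⟩
  intro p q W c hp hq hWp hWq hc hne
  have hp0 : (0 : ℝ) ≤ p := Nat.cast_nonneg _
  have hq0 : (0 : ℝ) ≤ q := Nat.cast_nonneg _
  rw [max_le_iff, max_le_iff] at hp hq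
  have e1 : min δ1 (min δ2 δ3) ≤ δ1 := min_le_left _ _
  have e2 : min δ1 (min δ2 δ3) ≤ δ2 := (min_le_right _ _).trans (min_le_left _ _)
  have e3 : min δ1 (min δ2 δ3) ≤ δ3 := (min_le_right _ _).trans (min_le_right _ _)
  by_cases hc1 : K1 * p ≤ q
  · exact h1 p q W c hp.1 hc1 (hWp.trans (mul_le_mul_of_nonneg_right e1 hp0)) hc hne
  · by_cases hc2 : K2 * q ≤ p
    · exact h2 p q W c hq.2.1 hc2 (hWq.trans (mul_le_mul_of_nonneg_right e2 hq0)) hc hne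
    · push Not at hc1 hc2
      refine h3 p q W c hp.2.2 ?_ ?_ (hWp.trans (mul_le_mul_of_nonneg_right e3 hp0)) hc hne
      · exact hc1.le.trans (mul_le_mul_of_nonneg_right (le_max_left _ _) hp0)
      · exact hc2.le.trans (mul_le_mul_of_nonneg_right (le_max_right _ _) hq0)

/-- the lower bound for the combination of double zeta values in terms of the prime `l` -/
theorem comb (l : ℕ) (hl : l.Prime) (B : ℝ) (hB : 0 ≤ B) :
    ∃ δ : ℝ, 0 < δ ∧ ∃ P : ℕ, ∀ (p q W : ℕ) (c : ℕ → ℤ) (d : ℤ), P ≤ p → P ≤ q → W ≤ q →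
      (W : ℝ) ≤ δ * p → (W : ℝ) ≤ δ * q → (∀ i ≤ W, |(c i : ℝ)| ≤ B) →
      (d = 0 → pv W c (1 / l) ≠ 0) →
      1 / ((l : ℝ) + 1) ^ p <
        |∑ i ∈ range (W + 1), (c i : ℝ) * dz (p + i) (q - i) + (d : ℝ) * zz (p + q)| := by
  have hl0 : (0 : ℝ) < l := by exact_mod_cast hl.pos
  have hl2 : (2 : ℝ) ≤ l := by exact_mod_cast hl.two_le
  set ε : ℝ := Real.log (((l : ℝ) + 1) / l) / 2 with hεd
  have hε : 0 < ε := by
    have : 0 < Real.log (((l : ℝ) + 1) / l) := by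
      apply Real.log_pos
      rw [one_lt_div hl0]
      linarith
    positivity
  obtain ⟨δ, hδ, P, h⟩ := allr l hl B ε hB hε
  obtain ⟨P1, hP1⟩ := ev_small (4 * B * ((l : ℝ) + 1) ^ 3) ε (by positivity) hε
  obtain ⟨P2, hP2⟩ := ev_small 1 ε zero_le_one hε
  obtain ⟨P3, hP3⟩ := ev_small (2 * B * 8) (Real.log 2) (by positivity) (Real.log_pos one_lt_two)
  refine ⟨min δ 1, lt_min hδ one_pos, max P (max P1 (max P2 (max P3 3))), ?_⟩
  intro p q W c d hp hq hWq hWp hWq' hc hne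
  simp only [max_le_iff] at hp hq
  obtain ⟨hp, hp1, hp2, hp3, hp4⟩ := hp
  obtain ⟨hq, -⟩ := hq
  have hp0 : (0 : ℝ) ≤ p := Nat.cast_nonneg _
  have hq0 : (0 : ℝ) ≤ q := Nat.cast_nonneg _
  have hWp1 : (W : ℝ) ≤ p := by
    have := hWp.trans (mul_le_mul_of_nonneg_right (min_le_right _ _) hp0)
    rwa [one_mul] at this
  have hWpδ := hWp.trans (mul_le_mul_of_nonneg_right (min_le_left _ _) hp0)
  have hWqδ := hWq'.trans (mul_le_mul_of_nonneg_right (min_le_left _ _) hq0)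
  have hl1 : ((l : ℝ) + 1) ^ p = (l : ℝ) ^ p * Real.exp (2 * ε * p) := by
    have e1 : Real.exp (2 * ε * p) = (((l : ℝ) + 1) / l) ^ p := by
      rw [hεd, mul_comm (2 * _), Real.exp_nat_mul]
      congr 1
      rw [mul_div_cancel₀ _ (two_ne_zero), Real.exp_log (by positivity)]
    rw [e1, ← mul_pow]
    congr 1
    field_simp
  have hsm2 : Real.exp (-(ε * p)) ≤ 1 / 4 := by
    have := hP2 p (by exact_mod_cast hp2)
    rw [one_mul] at this
    calc Real.exp (-(ε * p)) ≤ ((p : ℝ) + 1) * Real.exp (-(ε * p)) :=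
          le_mul_of_one_le_left (Real.exp_pos _).le (by linarith)
      _ ≤ 1 / 4 := this
  by_cases hd : d = 0
  · rw [hd, Int.cast_zero, zero_mul, add_zero]
    have hmain := h p q W c hp hq hWpδ hWqδ hc (hne hd)
    have hser := ser (by omega) hWq hc l
    set Λ := ∑ i ∈ range (W + 1), (c i : ℝ) * dz (p + i) (q - i) with hΛ
    set S := ∑ x ∈ TT l, tm p q W c x with hS
    have htail : 2 * B * (W + 1) * (((l : ℝ) + 1) ^ 3 / ((l : ℝ) + 1) ^ p) ≤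
        1 / 2 * (Real.exp (-(ε * p)) / (l : ℝ) ^ p) := by
      rw [hl1]
      have e1 := hP1 p (by exact_mod_cast hp1)
      have e2 : Real.exp (2 * ε * p) = Real.exp (ε * p) * Real.exp (ε * p) := by
        rw [← Real.exp_add]
        congr 1
        ring
      have e3 : Real.exp (-(ε * p)) = 1 / Real.exp (ε * p) := by
        rw [Real.exp_neg, one_div]
      rw [e2]
      rw [e3] at e1 ⊢
      have e4 : 0 < Real.exp (ε * p) := Real.exp_pos _
      have e5 : 2 * B * (W + 1) * (((l : ℝ) + 1) ^ 3 /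
          ((l : ℝ) ^ p * (Real.exp (ε * p) * Real.exp (ε * p)))) =
          1 / 2 * (4 * B * ((l : ℝ) + 1) ^ 3 * ((W : ℝ) + 1) * (1 / Real.exp (ε * p))) *
            (1 / Real.exp (ε * p) / (l : ℝ) ^ p) := by
        field_simp
        ring
      rw [e5]
      have e6 : 4 * B * ((l : ℝ) + 1) ^ 3 * ((W : ℝ) + 1) * (1 / Real.exp (ε * p)) ≤ 1 := by
        have e7 : 4 * B * ((l : ℝ) + 1) ^ 3 * ((W : ℝ) + 1) * (1 / Real.exp (ε * p)) ≤
            4 * B * ((l : ℝ) + 1) ^ 3 * ((p : ℝ) + 1) * (1 / Real.exp (ε * p)) := by gcongr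
        linarith
      have e8 : 0 < 1 / Real.exp (ε * p) / (l : ℝ) ^ p := by positivity
      nlinarith
    have h1 : |S| ≤ |Λ| + |Λ - S| := by
      have e1 : S = Λ - (Λ - S) := by ring
      calc |S| = |Λ - (Λ - S)| := by rw [← e1]
        _ ≤ _ := abs_sub _ _
    have h2 : 1 / 2 * (Real.exp (-(ε * p)) / (l : ℝ) ^ p) ≤ |Λ| := by linarith
    refine lt_of_lt_of_le ?_ h2
    rw [hl1, ← one_div_mul_one_div]
    have e1 : (1 : ℝ) / Real.exp (2 * ε * p) = Real.exp (-(ε * p)) * Real.exp (-(ε * p)) := by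
      rw [← Real.exp_add, one_div, ← Real.exp_neg]
      congr 1
      ring
    rw [e1]
    have e2 : 0 < Real.exp (-(ε * p)) := Real.exp_pos _
    have e3 : (0 : ℝ) < 1 / (l : ℝ) ^ p := by positivity
    have e4 : 0 < 1 / (l : ℝ) ^ p * Real.exp (-(ε * p)) := by positivity
    calc 1 / (l : ℝ) ^ p * (Real.exp (-(ε * p)) * Real.exp (-(ε * p)))
        = (1 / (l : ℝ) ^ p * Real.exp (-(ε * p))) * Real.exp (-(ε * p)) := by ring
      _ ≤ (1 / (l : ℝ) ^ p * Real.exp (-(ε * p))) * (1 / 4) := by gcongr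
      _ < (1 / (l : ℝ) ^ p * Real.exp (-(ε * p))) * (1 / 2) := by
          apply mul_lt_mul_of_pos_left _ e4
          norm_num
      _ = 1 / 2 * (Real.exp (-(ε * p)) / (l : ℝ) ^ p) := by ring
  · have hser := ser (by omega) hWq hc 1
    have hT : ∑ x ∈ TT 1, tm p q W c x = 0 := by
      apply sum_eq_zero
      intro x hx
      rw [mem_TT] at hx
      omega
    rw [hT, sub_zero] at hser
    have h1 := hP3 p (by exact_mod_cast hp3)
    have h2 : Real.exp (-(Real.log 2 * p)) = 1 / 2 ^ p := by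
      rw [Real.exp_neg, mul_comm, Real.exp_nat_mul, Real.exp_log two_pos, one_div]
    rw [h2] at h1
    have h3 : 2 * B * (W + 1) * ((((1 : ℕ) : ℝ) + 1) ^ 3 / (((1 : ℕ) : ℝ) + 1) ^ p) ≤ 1 / 4 := by
      have e1 : (((1 : ℕ) : ℝ) + 1) = 2 := by norm_num
      rw [e1]
      calc 2 * B * (W + 1) * ((2 : ℝ) ^ 3 / 2 ^ p)
          = 2 * B * 8 * (W + 1) * (1 / 2 ^ p) := by ring
        _ ≤ 2 * B * 8 * (p + 1) * (1 / 2 ^ p) := by gcongr
        _ ≤ 1 / 4 := h1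
    set Λ := ∑ i ∈ range (W + 1), (c i : ℝ) * dz (p + i) (q - i) with hΛ
    have h4 : 1 ≤ |(d : ℝ) * zz (p + q)| := by
      have hz := zz_ge (k := p + q) (by omega)
      rw [abs_mul]
      have e1 : (1 : ℝ) ≤ |(d : ℝ)| := by exact_mod_cast Int.one_le_abs hd
      have e2 : (1 : ℝ) ≤ |zz (p + q)| := hz.trans (le_abs_self _)
      nlinarith
    have h5 : |(d : ℝ) * zz (p + q)| ≤ |Λ + (d : ℝ) * zz (p + q)| + |Λ| := by
      have e1 : (d : ℝ) * zz (p + q) = (Λ + (d : ℝ) * zz (p + q)) - Λ := by ring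
      calc |(d : ℝ) * zz (p + q)| = |(Λ + (d : ℝ) * zz (p + q)) - Λ| := by rw [← e1]
        _ ≤ _ := abs_sub _ _
    have h6 : 1 / ((l : ℝ) + 1) ^ p ≤ 1 / 4 := by
      have e1 : (4 : ℝ) ≤ ((l : ℝ) + 1) ^ p := by
        calc (4 : ℝ) ≤ 3 ^ 3 := by norm_num
          _ ≤ ((l : ℝ) + 1) ^ 3 := by gcongr; linarith
          _ ≤ ((l : ℝ) + 1) ^ p := pow_le_pow_right₀ (by linarith) (by omega)
      exact one_div_le_one_div_of_le (by norm_num) e1
    linarith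

/-- the sum over a window as a sum over its offsets -/
lemma win_eq {p0 p1 k : ℕ} (h01 : p0 ≤ p1) (h1k : p1 ≤ k) (c : ℕ → ℤ) :
    ∑ p ∈ Icc p0 p1, (c p : ℝ) * dz p (k - p) =
      ∑ i ∈ range (p1 - p0 + 1), (c (p0 + i) : ℝ) * dz (p0 + i) ((k - p0) - i) := by
  have h1 : Icc p0 p1 = Ico p0 (p1 + 1) := by
    ext x
    rw [mem_Icc, mem_Ico]
    omega
  rw [h1, sum_Ico_eq_sum_range]
  have h2 : p1 + 1 - p0 = p1 - p0 + 1 := by omega
  rw [h2]
  refine sum_congr rfl fun i hi => ?_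
  rw [mem_range] at hi
  congr 2
  omega

/-- **Windows of proportional length.** -/
theorem part1 (B : ℝ) : ∃ (δ : ℝ) (C P : ℕ), 0 < δ ∧ 0 < C ∧ ∀ k p0 p1 : ℕ, P ≤ p0 → p0 ≤ p1 →
    p1 + P ≤ k → (p1 : ℝ) - p0 ≤ δ * p0 → (p1 : ℝ) - p0 ≤ δ * (k - p0) → ∀ (c : ℕ → ℤ) (d : ℤ),
    (∀ p ∈ Icc p0 p1, |(c p : ℝ)| ≤ B) → (d ≠ 0 ∨ ∃ p ∈ Icc p0 p1, c p ≠ 0) →
    1 / (C : ℝ) ^ p0 < |∑ p ∈ Icc p0 p1, (c p : ℝ) * dz p (k - p) + (d : ℝ) * zz k| := by
  set B' := max B 1 with hB'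
  obtain ⟨l, hl1, hl⟩ := Nat.exists_infinite_primes (⌈B'⌉₊ + 1)
  have hBl : B' < l := by
    have h1 := Nat.le_ceil B'
    have h2 : ((⌈B'⌉₊ + 1 : ℕ) : ℝ) ≤ l := by exact_mod_cast hl1
    push_cast at h2
    linarith
  obtain ⟨δ, hδ, P, h⟩ := comb l hl B' (by positivity)
  refine ⟨δ, l + 1, P, hδ, by omega, ?_⟩
  intro k p0 p1 hP h01 h1k hw1 hw2 c d hc hne
  rw [win_eq h01 (by omega) c]
  have hk : k = p0 + (k - p0) := by omega
  have hcast : ((p1 - p0 : ℕ) : ℝ) = (p1 : ℝ) - p0 := by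
    push_cast [Nat.cast_sub h01]; ring
  have hcast2 : ((k - p0 : ℕ) : ℝ) = (k : ℝ) - p0 := by
    rw [Nat.cast_sub (by omega)]
  have hc' : ∀ i ≤ p1 - p0, |(c (p0 + i) : ℝ)| ≤ B' := by
    intro i hi
    refine (hc (p0 + i) ?_).trans (le_max_left _ _)
    rw [mem_Icc]
    omega
  have key := h p0 (k - p0) (p1 - p0) (fun i => c (p0 + i)) d hP (by omega) (by omega)
    (by rw [hcast]; exact hw1) (by rw [hcast, hcast2]; exact hw2) hc' ?_
  · rw [← hk] at key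
    push_cast
    exact key
  · intro hd
    rcases hne with hne | ⟨p, hp, hcp⟩
    · exact absurd hd hne
    · rw [mem_Icc] at hp
      refine pv_ne hl (fun i hi => (hc' i hi).trans_lt hBl) ⟨p - p0, by omega, ?_⟩
      have : p0 + (p - p0) = p := by omega
      rw [this]
      exact hcp

end Pool.Agent.D0H51.DZ
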