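import Mathlib
import Pool.Agent.D0H51.DZ.Ser
import Pool.Agent.D0H51.DZ.Ends

/-!
# Windows around the rational multiples of the weight
-/

set_option autoImplicit false

namespace Pool.Agent.D0H51.DZ

open Finset

/-- the size of the pair -/
def gg (a b : ℕ) (x : ℕ × ℕ) : ℕ := x.1 ^ a * x.2 ^ b

lemma fst_le_gg {a b : ℕ} (ha : 1 ≤ a) {x : ℕ × ℕ} (h1 : 1 ≤ x.2) (h2 : x.2 < x.1) :
    x.1 ≤ gg a b x := by
  unfold gg
  have h3 : x.1 ≤ x.1 ^ a := Nat.le_self_pow (by omega) _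
  have h4 : 1 ≤ x.2 ^ b := Nat.one_le_pow _ _ h1
  calc x.1 ≤ x.1 ^ a := h3
    _ = x.1 ^ a * 1 := (mul_one _).symm
    _ ≤ _ := Nat.mul_le_mul_left _ h4

/-- the sum over the pairs of size `g` -/
noncomputable def cl (a b p q W : ℕ) (c : ℕ → ℤ) (g : ℕ) : ℝ :=
  ∑ x ∈ (TT g).filter (fun x => gg a b x = g), tm p q W c x

lemma filter_eq {a b : ℕ} (ha : 1 ≤ a) {g M : ℕ} (hg : g ≤ M) :
    (TT M).filter (fun x => gg a b x = g) = (TT g).filter (fun x => gg a b x = g) := by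
  ext x
  rw [mem_filter, mem_filter, mem_TT, mem_TT]
  constructor
  · rintro ⟨⟨h1, h2, h3⟩, h4⟩
    have h5 := fst_le_gg (b := b) ha h1 h2
    rw [h4] at h5
    exact ⟨⟨h1, h2, h5⟩, h4⟩
  · rintro ⟨⟨h1, h2, h3⟩, h4⟩
    exact ⟨⟨h1, h2, by omega⟩, h4⟩

lemma cl_ge {a b p q W N E : ℕ} {c : ℕ → ℤ} {g : ℕ} (h1 : p + W ≤ a * (N + E))
    (h2 : q ≤ b * (N + E)) (hne : cl a b p q W c g ≠ 0) :
    1 / (g : ℝ) ^ (N + E) ≤ |cl a b p q W c g| := by
  have hg0 : 0 < g := by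
    rcases Nat.eq_zero_or_pos g with h | h
    · exfalso
      apply hne
      unfold cl
      rw [h]
      apply sum_eq_zero
      intro x hx
      rw [mem_filter, mem_TT] at hx
      omega
    · exact h
  have hgR : (0 : ℝ) < g := by exact_mod_cast hg0
  have hint : ∃ z : ℤ, cl a b p q W c g * (g : ℝ) ^ (N + E) = z := by
    unfold cl
    rw [sum_mul]
    have h3 : ∀ x ∈ (TT g).filter (fun x => gg a b x = g),
        ∃ z : ℤ, tm p q W c x * (g : ℝ) ^ (N + E) = z := by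
      intro x hx
      rw [mem_filter, mem_TT] at hx
      obtain ⟨⟨k1, k2, k3⟩, k4⟩ := hx
      have hx1 : (x.1 : ℝ) ≠ 0 := by
        have : x.1 ≠ 0 := by omega
        exact_mod_cast this
      have hx2 : (x.2 : ℝ) ≠ 0 := by
        have : x.2 ≠ 0 := by omega
        exact_mod_cast this
      refine ⟨(∑ i ∈ range (W + 1), c i * (x.2 : ℤ) ^ i * (x.1 : ℤ) ^ (W - i)) *
        ((x.1 : ℤ) ^ (a * (N + E) - (p + W)) * (x.2 : ℤ) ^ (b * (N + E) - q)), ?_⟩
      have e1 : ((∑ i ∈ range (W + 1), c i * (x.2 : ℤ) ^ i * (x.1 : ℤ) ^ (W - i) : ℤ) : ℝ) =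
          pv W c ((x.2 : ℝ) / x.1) * (x.1 : ℝ) ^ W := by
        unfold pv
        rw [sum_mul]
        push_cast
        refine sum_congr rfl fun i hi => ?_
        rw [mem_range] at hi
        have e2 : (x.1 : ℝ) ^ W = (x.1 : ℝ) ^ i * (x.1 : ℝ) ^ (W - i) := by
          rw [← pow_add]
          congr 1
          omega
        rw [e2, div_pow]
        field_simp
      have e3 : (g : ℝ) ^ (N + E) = ((x.1 : ℝ) ^ p * (x.1 : ℝ) ^ W *
          (x.1 : ℝ) ^ (a * (N + E) - (p + W))) * ((x.2 : ℝ) ^ q *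
            (x.2 : ℝ) ^ (b * (N + E) - q)) := by
        rw [← pow_add, ← pow_add, ← pow_add, ← k4]
        unfold gg
        push_cast
        rw [mul_pow, ← pow_mul, ← pow_mul]
        congr 2 <;> omega
      rw [Int.cast_mul, e1, e3]
      unfold tm
      push_cast
      field_simp
    choose! z hz using h3
    refine ⟨∑ x ∈ (TT g).filter (fun x => gg a b x = g), z x, ?_⟩
    push_cast
    exact sum_congr rfl hz
  obtain ⟨z, hz⟩ := hint
  have hz0 : z ≠ 0 := by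
    intro h
    rw [h, Int.cast_zero] at hz
    exact (mul_ne_zero hne (by positivity)) hz
  rw [div_le_iff₀ (by positivity)]
  have h5 : |cl a b p q W c g| * (g : ℝ) ^ (N + E) = |cl a b p q W c g * (g : ℝ) ^ (N + E)| := by
    rw [abs_mul, abs_of_pos (show (0 : ℝ) < (g : ℝ) ^ (N + E) by positivity)]
  rw [h5, hz]
  exact_mod_cast Int.one_le_abs hz0

/-- the class of a prime number has one element -/
lemma cl_prime {a b : ℕ} (ha : 1 ≤ a) (hb : 1 ≤ b) {l : ℕ} (hl : l.Prime) (p q W : ℕ)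
    (c : ℕ → ℤ) : cl a b p q W c (l ^ a) = pv W c (1 / l) / (l : ℝ) ^ p := by
  have hl2 := hl.two_le
  unfold cl
  have h1 : (TT (l ^ a)).filter (fun x => gg a b x = l ^ a) = {(l, 1)} := by
    ext x
    rw [mem_filter, mem_TT, mem_singleton]
    constructor
    · rintro ⟨⟨k1, k2, k3⟩, k4⟩
      unfold gg at k4
      have e1 : x.1 ^ a ∣ l ^ a := ⟨x.2 ^ b, k4.symm⟩
      have e2 : x.1 ∣ l := (Nat.pow_dvd_pow_iff (by omega)).1 e1
      rcases (Nat.dvd_prime hl).1 e2 with e3 | e3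
      · omega
      · rw [e3] at k4
        have e4 : x.2 ^ b = 1 := by
          have h0 : 0 < l ^ a := by positivity
          exact Nat.eq_of_mul_eq_mul_left h0 (by rw [k4, mul_one])
        have e5 : x.2 = 1 := (Nat.pow_eq_one.1 e4).resolve_right (by omega)
        exact Prod.ext e3 e5
    · rintro rfl
      unfold gg
      simp only [one_pow, mul_one, and_true]
      have h3 : l ≤ l ^ a := Nat.le_self_pow (by omega) _
      omega
  rw [h1, sum_singleton]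
  unfold tm
  simp

/-- **The lower bound in terms of a prime number with `P(1/l) ≠ 0`.** -/
theorem rat_core {a b p q W N E : ℕ} (ha : 1 ≤ a) (hb : 1 ≤ b) (hp3 : 3 ≤ p) (hWq : W ≤ q)
    (hEN : E ≤ N) (h1 : p + W ≤ a * (N + E)) (h2 : q ≤ b * (N + E)) (h3 : a * (N - E) ≤ p)
    (h4 : b * (N - E) ≤ q) {c : ℕ → ℤ} {B : ℝ} (hc : ∀ i ≤ W, |(c i : ℝ)| ≤ B) {l : ℕ}
    (hl : l.Prime) (hne : pv W c (1 / l) ≠ 0)
    (hnum : ∀ g : ℕ, 1 ≤ g → g ≤ l ^ a →
      6 * B * (W + 1) * ((g : ℝ) + 1) ^ 3 * (g : ℝ) ^ (N + E) ≤ ((g : ℝ) + 1) ^ (N - E)) :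
    1 / (2 * ((l : ℝ) ^ a) ^ (N + E)) ≤
      |∑ i ∈ range (W + 1), (c i : ℝ) * dz (p + i) (q - i)| := by
  classical
  have hB : 0 ≤ B := (abs_nonneg _).trans (hc 0 (Nat.zero_le _))
  have hl2 := hl.two_le
  have hl0 : (0 : ℝ) < l := by exact_mod_cast hl.pos
  have hex : ∃ g : ℕ, cl a b p q W c g ≠ 0 := by
    refine ⟨l ^ a, ?_⟩
    rw [cl_prime ha hb hl]
    exact div_ne_zero hne (by positivity)
  set g := Nat.find hex with hg
  have hgne := Nat.find_spec hex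
  rw [← hg] at hgne
  have hgl : g ≤ l ^ a := Nat.find_le (by
    rw [cl_prime ha hb hl]
    exact div_ne_zero hne (by positivity))
  have hmin : ∀ g' < g, cl a b p q W c g' = 0 := by
    intro g' hg'
    by_contra h
    exact Nat.find_min hex hg' h
  have hg1 : 1 ≤ g := by
    by_contra h
    have h0 : g = 0 := by omega
    apply hgne
    rw [h0]
    unfold cl
    apply sum_eq_zero
    intro x hx
    rw [mem_filter, mem_TT] at hx
    omega
  have hgR : (0 : ℝ) < g := by exact_mod_cast hg1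
  have hser := ser hp3 hWq hc g
  -- the sum over the pairs
  have hsplit : ∑ x ∈ TT g, tm p q W c x = cl a b p q W c g +
      ∑ x ∈ (TT g).filter (fun x => ¬ gg a b x ≤ g), tm p q W c x := by
    rw [← sum_filter_add_sum_filter_not (TT g) (fun x => gg a b x ≤ g)]
    congr 1
    have e1 : ∑ x ∈ (TT g).filter (fun x => gg a b x ≤ g), tm p q W c x =
        ∑ g' ∈ range (g + 1), ∑ x ∈ ((TT g).filter (fun x => gg a b x ≤ g)).filter
          (fun x => gg a b x = g'), tm p q W c x := by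
      rw [sum_fiberwise_of_maps_to]
      intro x hx
      rw [mem_filter] at hx
      rw [mem_range]
      omega
    rw [e1, sum_range_succ]
    have e2 : ∀ g' ≤ g, ∑ x ∈ ((TT g).filter (fun x => gg a b x ≤ g)).filter
        (fun x => gg a b x = g'), tm p q W c x = cl a b p q W c g' := by
      intro g' hg'
      unfold cl
      rw [← filter_eq ha hg']
      refine sum_congr ?_ fun _ _ => rfl
      ext x
      simp only [mem_filter]
      constructor
      · rintro ⟨⟨k1, k2⟩, k3⟩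
        exact ⟨k1, k3⟩
      · rintro ⟨k1, k2⟩
        exact ⟨⟨k1, by omega⟩, k2⟩
    rw [e2 g le_rfl]
    have e3 : ∑ g' ∈ range g, ∑ x ∈ ((TT g).filter (fun x => gg a b x ≤ g)).filter
        (fun x => gg a b x = g'), tm p q W c x = 0 := by
      apply sum_eq_zero
      intro g' hg'
      rw [mem_range] at hg'
      rw [e2 g' hg'.le]
      exact hmin g' hg'
    rw [e3, zero_add]
  have hrest : |∑ x ∈ (TT g).filter (fun x => ¬ gg a b x ≤ g), tm p q W c x| ≤
      ((g : ℝ) + 1) ^ 2 * (B * (W + 1) / ((g : ℝ) + 1) ^ (N - E)) := by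
    refine (abs_sum_le_sum_abs _ _).trans ?_
    have e1 : ∀ x ∈ (TT g).filter (fun x => ¬ gg a b x ≤ g), |tm p q W c x| ≤
        B * (W + 1) / ((g : ℝ) + 1) ^ (N - E) := by
      intro x hx
      rw [mem_filter, mem_TT] at hx
      obtain ⟨⟨k1, k2, k3⟩, k4⟩ := hx
      refine (abs_tm_le hc k1 k2).trans ?_
      have k5 : (1 : ℝ) ≤ x.1 := by
        have : 1 ≤ x.1 := by omega
        exact_mod_cast this
      have k6 : (1 : ℝ) ≤ x.2 := by exact_mod_cast k1
      have k7 : ((g : ℝ) + 1) ^ (N - E) ≤ (x.1 : ℝ) ^ p * (x.2 : ℝ) ^ q := by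
        have k8 : (g : ℝ) + 1 ≤ (x.1 : ℝ) ^ a * (x.2 : ℝ) ^ b := by
          have k9 : g + 1 ≤ gg a b x := by omega
          have k10 : ((g + 1 : ℕ) : ℝ) ≤ ((gg a b x : ℕ) : ℝ) := by exact_mod_cast k9
          unfold gg at k10
          push_cast at k10
          exact k10
        calc ((g : ℝ) + 1) ^ (N - E) ≤ ((x.1 : ℝ) ^ a * (x.2 : ℝ) ^ b) ^ (N - E) := by gcongr
          _ = (x.1 : ℝ) ^ (a * (N - E)) * (x.2 : ℝ) ^ (b * (N - E)) := by
              rw [mul_pow, ← pow_mul, ← pow_mul]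
          _ ≤ (x.1 : ℝ) ^ p * (x.2 : ℝ) ^ q := by
              gcongr
      gcongr
    refine (sum_le_sum e1).trans ?_
    rw [sum_const, nsmul_eq_mul]
    have e2 : (((TT g).filter (fun x => ¬ gg a b x ≤ g)).card : ℝ) ≤ ((g : ℝ) + 1) ^ 2 := by
      have e3 := (card_filter_le (TT g) (fun x => ¬ gg a b x ≤ g)).trans (card_TT g)
      exact_mod_cast e3
    gcongr
  have hcl := cl_ge (c := c) (g := g) h1 h2 hgne
  have hnumg := hnum g hg1 hgl
  have htail : 2 * B * (W + 1) * (((g : ℝ) + 1) ^ 3 / ((g : ℝ) + 1) ^ p) ≤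
      2 * B * (W + 1) * (((g : ℝ) + 1) ^ 3 / ((g : ℝ) + 1) ^ (N - E)) := by
    have e1 : N - E ≤ p := by
      calc N - E = 1 * (N - E) := (one_mul _).symm
        _ ≤ a * (N - E) := Nat.mul_le_mul_right _ ha
        _ ≤ p := h3
    have e2 : (1 : ℝ) ≤ (g : ℝ) + 1 := by linarith
    gcongr
  have herr : 3 * B * (W + 1) * (((g : ℝ) + 1) ^ 3 / ((g : ℝ) + 1) ^ (N - E)) ≤
      1 / 2 * (1 / (g : ℝ) ^ (N + E)) := by
    have e1 : (0 : ℝ) < ((g : ℝ) + 1) ^ (N - E) := by positivity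
    have e2 : (0 : ℝ) < (g : ℝ) ^ (N + E) := by positivity
    rw [← mul_div_assoc, div_le_iff₀ e1]
    have e3 : 3 * B * (W + 1) * ((g : ℝ) + 1) ^ 3 * (g : ℝ) ^ (N + E) ≤
        1 / 2 * ((g : ℝ) + 1) ^ (N - E) := by linarith
    calc 3 * B * (W + 1) * ((g : ℝ) + 1) ^ 3
        = 3 * B * (W + 1) * ((g : ℝ) + 1) ^ 3 * (g : ℝ) ^ (N + E) * (1 / (g : ℝ) ^ (N + E)) := by
          field_simp
      _ ≤ 1 / 2 * ((g : ℝ) + 1) ^ (N - E) * (1 / (g : ℝ) ^ (N + E)) := by gcongr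
      _ = _ := by ring
  have hrest2 : ((g : ℝ) + 1) ^ 2 * (B * (W + 1) / ((g : ℝ) + 1) ^ (N - E)) ≤
      B * (W + 1) * (((g : ℝ) + 1) ^ 3 / ((g : ℝ) + 1) ^ (N - E)) := by
    have e1 : ((g : ℝ) + 1) ^ 2 ≤ ((g : ℝ) + 1) ^ 3 := by
      apply pow_le_pow_right₀ (by linarith) (by norm_num)
    calc ((g : ℝ) + 1) ^ 2 * (B * (W + 1) / ((g : ℝ) + 1) ^ (N - E))
        ≤ ((g : ℝ) + 1) ^ 3 * (B * (W + 1) / ((g : ℝ) + 1) ^ (N - E)) := by gcongr
      _ = _ := by ring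
  rw [hsplit] at hser
  set Λ := ∑ i ∈ range (W + 1), (c i : ℝ) * dz (p + i) (q - i) with hΛ
  set Rr := ∑ x ∈ (TT g).filter (fun x => ¬ gg a b x ≤ g), tm p q W c x with hRr
  have hfin : 1 / 2 * (1 / (g : ℝ) ^ (N + E)) ≤ |Λ| := by
    have e1 : |cl a b p q W c g| ≤ |Λ| + |Λ - (cl a b p q W c g + Rr)| + |Rr| := by
      have e2 : cl a b p q W c g = Λ - (Λ - (cl a b p q W c g + Rr)) - Rr := by ring
      calc |cl a b p q W c g| = |Λ - (Λ - (cl a b p q W c g + Rr)) - Rr| := by rw [← e2]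
        _ ≤ |Λ - (Λ - (cl a b p q W c g + Rr))| + |Rr| := abs_sub _ _
        _ ≤ |Λ| + |Λ - (cl a b p q W c g + Rr)| + |Rr| := by
            have := abs_sub Λ (Λ - (cl a b p q W c g + Rr))
            linarith
    linarith
  refine le_trans ?_ hfin
  rw [← one_div_mul_one_div]
  have e1 : (g : ℝ) ^ (N + E) ≤ ((l : ℝ) ^ a) ^ (N + E) := by
    gcongr
    exact_mod_cast hgl
  gcongr

end Pool.Agent.D0H51.DZ
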