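import Mathlib
import Pool.Agent.D0H51.DZ.Main1
import Pool.Agent.D0H51.DZ.Rat
import Pool.Agent.D0H51.DZ.Asy

/-!
# Windows around the rational multiples of the weight, large coefficients
-/

set_option autoImplicit false

namespace Pool.Agent.D0H51.DZ

open Finset Filter

/-- if the polynomial vanishes at `1 / l`, its leading coefficient is divisible by `l` -/
lemma dvd_top {W : ℕ} {c : ℕ → ℤ} {l : ℕ} (hl : 0 < l) {t : ℕ} (ht : t ≤ W)
    (hmax : ∀ i, t < i → i ≤ W → c i = 0) (h0 : pv W c ((1 : ℝ) / l) = 0) : (l : ℤ) ∣ c t := by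
  have hl0 : (l : ℝ) ≠ 0 := by exact_mod_cast hl.ne'
  have h1 : ((∑ i ∈ range (t + 1), c i * (l : ℤ) ^ (t - i) : ℤ) : ℝ) = 0 := by
    have h2 : pv W c ((1 : ℝ) / l) * (l : ℝ) ^ t = 0 := by rw [h0, zero_mul]
    rw [← h2]
    unfold pv
    have h3 : ∑ i ∈ range (W + 1), (c i : ℝ) * ((1 : ℝ) / l) ^ i =
        ∑ i ∈ range (t + 1), (c i : ℝ) * ((1 : ℝ) / l) ^ i := by
      symm
      apply sum_subset
      · intro i hi
        rw [mem_range] at hi ⊢
        omega
      · intro i hi hi'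
        rw [mem_range] at hi hi'
        rw [hmax i (by omega) (by omega)]
        simp
    rw [h3, sum_mul]
    push_cast
    refine sum_congr rfl fun i hi => ?_
    rw [mem_range] at hi
    have h4 : (l : ℝ) ^ t = (l : ℝ) ^ i * (l : ℝ) ^ (t - i) := by
      rw [← pow_add]
      congr 1
      omega
    rw [h4, div_pow, one_pow]
    field_simp
  have h2 : ∑ i ∈ range (t + 1), c i * (l : ℤ) ^ (t - i) = 0 := by exact_mod_cast h1
  rw [sum_range_succ, Nat.sub_self, pow_zero, mul_one] at h2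
  have h4 : (l : ℤ) ∣ ∑ i ∈ range t, c i * (l : ℤ) ^ (t - i) := by
    refine dvd_sum fun i hi => ?_
    rw [mem_range] at hi
    exact Dvd.dvd.mul_left (dvd_pow_self _ (by omega)) _
  have h5 : c t = -∑ i ∈ range t, c i * (l : ℤ) ^ (t - i) := by linarith
  rw [h5]
  exact (dvd_neg).2 h4

/-- the number of primes up to `x` at which the polynomial may vanish -/
lemma few_primes {W : ℕ} {c : ℕ → ℤ} {B : ℝ} (hc : ∀ i ≤ W, |(c i : ℝ)| ≤ B)
    (hne : ∃ i ≤ W, c i ≠ 0) {x : ℕ}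
    (h : ∀ l : ℕ, l.Prime → l ≤ x → pv W c ((1 : ℝ) / l) = 0) :
    x.primeCounting ≤ W ∧ (2 : ℝ) ^ x.primeCounting ≤ B := by
  classical
  set S := (range (x + 1)).filter Nat.Prime with hS
  have hcard : x.primeCounting = S.card := by
    rw [Nat.primeCounting, Nat.primeCounting', Nat.count_eq_card_filter_range]
  have hmem : ∀ l ∈ S, l.Prime ∧ l ≤ x := by
    intro l hl
    rw [hS, mem_filter, mem_range] at hl
    exact ⟨hl.2, by omega⟩
  rw [hcard]
  -- the largest index with a nonzero coefficient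
  obtain ⟨i0, hi0, hci0⟩ := hne
  set I := (range (W + 1)).filter fun i => c i ≠ 0 with hI
  have hIne : I.Nonempty := ⟨i0, by rw [hI, mem_filter, mem_range]; exact ⟨by omega, hci0⟩⟩
  set t := I.max' hIne with ht
  have htI : t ∈ I := I.max'_mem hIne
  rw [hI, mem_filter, mem_range] at htI
  have hmax : ∀ i, t < i → i ≤ W → c i = 0 := by
    intro i h1 h2
    by_contra h3
    have h4 : i ∈ I := by rw [hI, mem_filter, mem_range]; exact ⟨by omega, h3⟩
    have h5 := I.le_max' i h4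
    omega
  constructor
  · by_contra hlt
    push Not at hlt
    set P : Polynomial ℝ := ∑ i ∈ range (W + 1), Polynomial.C (c i : ℝ) * Polynomial.X ^ i with hP
    have heval : ∀ y : ℝ, P.eval y = pv W c y := by
      intro y
      rw [hP, Polynomial.eval_finsetSum]
      unfold pv
      refine sum_congr rfl fun i _ => ?_
      simp
    have hdeg : P.natDegree ≤ W := by
      rw [hP]
      refine Polynomial.natDegree_sum_le_of_forall_le _ _ fun i hi => ?_
      rw [mem_range] at hi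
      exact (Polynomial.natDegree_C_mul_X_pow_le _ _).trans (by omega)
    have hinj : Function.Injective fun l : ℕ => (1 : ℝ) / l := by
      intro u v huv
      simp only [one_div, inv_inj, Nat.cast_inj] at huv
      exact huv
    have h0 := Polynomial.eq_zero_of_natDegree_lt_card_of_eval_eq_zero' P
      (S.image fun l : ℕ => (1 : ℝ) / l) ?_ ?_
    · have hcoef : P.coeff t = (c t : ℝ) := by
        rw [hP, Polynomial.finsetSum_coeff]
        simp only [Polynomial.coeff_C_mul, Polynomial.coeff_X_pow, mul_ite, mul_one, mul_zero]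
        rw [sum_ite_eq]
        rw [if_pos (mem_range.2 htI.1)]
      rw [h0, Polynomial.coeff_zero] at hcoef
      have : c t = 0 := by exact_mod_cast hcoef.symm
      exact htI.2 this
    · intro y hy
      rw [mem_image] at hy
      obtain ⟨l, hl, rfl⟩ := hy
      rw [heval]
      exact h l (hmem l hl).1 (hmem l hl).2
    · rw [card_image_of_injective _ hinj]
      omega
  · have h1 : ∏ l ∈ S, l ∣ (c t).natAbs := by
      refine Finset.prod_primes_dvd _ (fun l hl => (hmem l hl).1.prime) fun l hl => ?_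
      have := dvd_top (hmem l hl).1.pos (by omega : t ≤ W) hmax (h l (hmem l hl).1 (hmem l hl).2)
      exact Int.natCast_dvd.1 this
    have h2 : 2 ^ S.card ≤ ∏ l ∈ S, l := by
      rw [← prod_const]
      exact prod_le_prod' fun l hl => (hmem l hl).1.two_le
    have h3 := Nat.le_of_dvd (Int.natAbs_pos.2 htI.2) h1
    have h4 : ((c t).natAbs : ℝ) = |(c t : ℝ)| := by
      rw [Nat.cast_natAbs, Int.cast_abs]
    calc (2 : ℝ) ^ S.card = ((2 ^ S.card : ℕ) : ℝ) := by push_cast; rfl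
      _ ≤ ((c t).natAbs : ℝ) := by exact_mod_cast h2.trans h3
      _ = |(c t : ℝ)| := h4
      _ ≤ B := hc t (by omega)

/-- the numerical condition -/
lemma num {N w G : ℕ} {t γ σ κ : ℝ} (hN : 1 ≤ N) (hw : (w : ℝ) ≤ (N : ℝ) ^ t) (hwN : 2 * w ≤ N)
    (hG : (G : ℝ) ≤ (N : ℝ) ^ κ) (hκ1 : κ ≤ 1)
    (h1 : (N : ℝ) ^ γ ≤ (N : ℝ) ^ σ / 4) (h2 : 40 * (N : ℝ) ^ t * Real.log (8 * N) ≤ (N : ℝ) ^ σ / 4)
    (h3 : (N : ℝ) ^ (σ + κ) ≤ N) (ht0 : 0 ≤ t) (g : ℕ) (hg1 : 1 ≤ g) (hgG : g ≤ G) :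
    6 * Real.exp ((N : ℝ) ^ γ) * (((2 * w : ℕ) : ℝ) + 1) * ((g : ℝ) + 1) ^ 3 *
      (g : ℝ) ^ (N + 2 * w) ≤ ((g : ℝ) + 1) ^ (N - 2 * w) := by
  have hNR : (1 : ℝ) ≤ N := by exact_mod_cast hN
  have hN0 : (0 : ℝ) < N := by linarith
  have hgR : (1 : ℝ) ≤ g := by exact_mod_cast hg1
  have hg0 : (0 : ℝ) < g := by linarith
  have hgG' : (g : ℝ) ≤ G := by exact_mod_cast hgG
  have hwt : (1 : ℝ) ≤ (N : ℝ) ^ t := Real.one_le_rpow hNR ht0
  have hlog8 : 0 < Real.log (8 * N) := Real.log_pos (by linarith)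
  -- everything in logarithms
  have hL : 6 * Real.exp ((N : ℝ) ^ γ) * (((2 * w : ℕ) : ℝ) + 1) * ((g : ℝ) + 1) ^ 3 *
      (g : ℝ) ^ (N + 2 * w) = Real.exp (Real.log 6 + (N : ℝ) ^ γ + Real.log (((2 * w : ℕ) : ℝ) + 1) +
        3 * Real.log ((g : ℝ) + 1) + (N + 2 * w) * Real.log g) := by
    rw [Real.exp_add, Real.exp_add, Real.exp_add, Real.exp_add, Real.exp_log (by norm_num),
      Real.exp_log (by positivity)]
    have e1 : Real.exp (3 * Real.log ((g : ℝ) + 1)) = ((g : ℝ) + 1) ^ 3 := by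
      have : (3 : ℝ) = ((3 : ℕ) : ℝ) := by norm_num
      rw [this, Real.exp_nat_mul, Real.exp_log (by positivity)]
    have e2 : Real.exp (((N : ℝ) + 2 * w) * Real.log g) = (g : ℝ) ^ (N + 2 * w) := by
      have : ((N : ℝ) + 2 * w) = ((N + 2 * w : ℕ) : ℝ) := by push_cast; ring
      rw [this, Real.exp_nat_mul, Real.exp_log hg0]
    rw [e1, e2]
  have hR : ((g : ℝ) + 1) ^ (N - 2 * w) = Real.exp ((N - 2 * w) * Real.log ((g : ℝ) + 1)) := by
    have : ((N : ℝ) - 2 * w) = ((N - 2 * w : ℕ) : ℝ) := by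
      rw [Nat.cast_sub hwN]; push_cast; ring
    rw [this, Real.exp_nat_mul, Real.exp_log (by positivity)]
  rw [hL, hR]
  apply Real.exp_le_exp.2
  -- bounds
  have hdiff : (1 : ℝ) / (2 * g) ≤ Real.log ((g : ℝ) + 1) - Real.log g := by
    rw [← Real.log_div (by positivity) hg0.ne']
    have e1 := Real.one_sub_inv_le_log_of_pos (x := ((g : ℝ) + 1) / g) (by positivity)
    have e2 : 1 - (((g : ℝ) + 1) / g)⁻¹ = 1 / (g + 1) := by
      field_simp
      ring
    rw [e2] at e1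
    refine le_trans ?_ e1
    apply one_div_le_one_div_of_le (by positivity)
    linarith
  have hNg : (N : ℝ) ^ σ / 2 ≤ N * (Real.log ((g : ℝ) + 1) - Real.log g) := by
    have e1 : (N : ℝ) ^ σ * g ≤ N := by
      calc (N : ℝ) ^ σ * g ≤ (N : ℝ) ^ σ * (N : ℝ) ^ κ := by
            gcongr
            exact hgG'.trans hG
        _ = (N : ℝ) ^ (σ + κ) := (Real.rpow_add hN0 _ _).symm
        _ ≤ N := h3
    have e2 : (N : ℝ) ^ σ ≤ N / g := by
      rw [le_div_iff₀ hg0]
      exact e1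
    calc (N : ℝ) ^ σ / 2 ≤ N / g / 2 := by gcongr
      _ = N * (1 / (2 * g)) := by field_simp
      _ ≤ N * (Real.log ((g : ℝ) + 1) - Real.log g) := by gcongr
  have hlg : Real.log ((g : ℝ) + 1) ≤ Real.log (8 * N) := by
    apply Real.log_le_log (by positivity)
    have e1 : (N : ℝ) ^ κ ≤ N := by
      calc (N : ℝ) ^ κ ≤ (N : ℝ) ^ (1 : ℝ) := Real.rpow_le_rpow_of_exponent_le hNR hκ1
        _ = N := Real.rpow_one _
    linarith
  have hlg0 : 0 ≤ Real.log ((g : ℝ) + 1) := Real.log_nonneg (by linarith)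
  have hlg1 : Real.log g ≤ Real.log ((g : ℝ) + 1) := Real.log_le_log hg0 (by linarith)
  have hl6 : Real.log 6 ≤ Real.log (8 * N) := Real.log_le_log (by norm_num) (by linarith)
  have hlw : Real.log (((2 * w : ℕ) : ℝ) + 1) ≤ Real.log (8 * N) := by
    apply Real.log_le_log (by positivity)
    have : ((2 * w : ℕ) : ℝ) ≤ N := by exact_mod_cast hwN
    linarith
  have hw0 : (0 : ℝ) ≤ w := Nat.cast_nonneg _
  have hmain : Real.log 6 + (N : ℝ) ^ γ + Real.log (((2 * w : ℕ) : ℝ) + 1) +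
      3 * Real.log ((g : ℝ) + 1) + 2 * w * (Real.log g + Real.log ((g : ℝ) + 1)) ≤
      (N : ℝ) ^ σ / 2 := by
    have e1 : 2 * w * (Real.log g + Real.log ((g : ℝ) + 1)) ≤
        4 * (N : ℝ) ^ t * Real.log (8 * N) := by
      calc 2 * w * (Real.log g + Real.log ((g : ℝ) + 1))
          ≤ 2 * w * (Real.log (8 * N) + Real.log (8 * N)) :=
            mul_le_mul_of_nonneg_left (add_le_add (hlg1.trans hlg) hlg) (by positivity)
        _ = 4 * w * Real.log (8 * N) := by ring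
        _ ≤ _ := by gcongr
    have e2 : Real.log (8 * N) ≤ (N : ℝ) ^ t * Real.log (8 * N) :=
      le_mul_of_one_le_left hlog8.le hwt
    nlinarith
  linarith

/-- the first arguments `p` with `|p - a N| ≤ N ^ t` -/
noncomputable def win (k a N : ℕ) (t : ℝ) : Finset ℕ :=
  (range (k + 1)).filter fun p : ℕ => |(p : ℝ) - a * N| ≤ (N : ℝ) ^ t

lemma near_iff {x : ℕ} {X : ℝ} (hX : 0 ≤ X) {A : ℕ} (hA : ⌊X⌋₊ ≤ A) :
    |(x : ℝ) - A| ≤ X ↔ A - ⌊X⌋₊ ≤ x ∧ x ≤ A + ⌊X⌋₊ := by
  rw [abs_le]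
  constructor
  · rintro ⟨h1, h2⟩
    constructor
    · by_contra h
      push Not at h
      have h3 : A - x ≤ ⌊X⌋₊ := by
        apply Nat.le_floor
        rw [Nat.cast_sub (by omega)]
        linarith
      omega
    · by_contra h
      push Not at h
      have h3 : x - A ≤ ⌊X⌋₊ := by
        apply Nat.le_floor
        rw [Nat.cast_sub (by omega)]
        linarith
      omega
  · rintro ⟨h1, h2⟩
    have h3 := Nat.floor_le hX
    have h4 : (A : ℝ) ≤ x + ⌊X⌋₊ := by
      have : A ≤ x + ⌊X⌋₊ := by omega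
      exact_mod_cast this
    have h5 : (x : ℝ) ≤ A + ⌊X⌋₊ := by exact_mod_cast h2
    constructor <;> linarith

/-- **Windows around the rational multiples of the weight.** -/
theorem part2 (a b : ℕ) (ha : 1 ≤ a) (hb : 1 ≤ b) (t γ ε : ℝ) (ht : 0 < t) (hγ : 0 < γ)
    (h1 : a * min t γ + max t γ < 1) (hε : a * min t γ < ε) :
    ∃ N0 : ℕ, ∀ N k : ℕ, N0 ≤ N → |(k : ℝ) - (a + b) * N| ≤ (N : ℝ) ^ t → ∀ (c : ℕ → ℤ) (d : ℤ),
      (∀ p ∈ win k a N t, |(c p : ℝ)| ≤ Real.exp ((N : ℝ) ^ γ)) →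
      (d ≠ 0 ∨ ∃ p ∈ win k a N t, c p ≠ 0) →
      (N : ℝ) ^ (-(ε * N)) <
        |∑ p ∈ win k a N t, (c p : ℝ) * dz p (k - p) + (d : ℝ) * zz k| := by
  have haR : (1 : ℝ) ≤ a := by exact_mod_cast ha
  have ha0 : (0 : ℝ) < a := by linarith
  set m := min t γ with hm
  set M := max t γ with hM
  have hm0 : 0 < m := lt_min ht hγ
  have htM : t ≤ M := le_max_left _ _
  have hγM : γ ≤ M := le_max_right _ _
  have hM0 : 0 < M := ht.trans_le htM
  -- the exponent `lam` of the primes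
  obtain ⟨lam, hlam1, hlam2, hlam3⟩ : ∃ lam : ℝ, m < lam ∧ a * lam + M < 1 ∧ a * lam < ε := by
    set η := min ((1 - M - a * m) / 2) ((ε - a * m) / 2) with hη
    have hη0 : 0 < η := lt_min (by linarith) (by linarith)
    have e1 : η ≤ (1 - M - a * m) / 2 := min_le_left _ _
    have e2 : η ≤ (ε - a * m) / 2 := min_le_right _ _
    refine ⟨m + η / a, by linarith [div_pos hη0 ha0], ?_, ?_⟩
    · have : a * (m + η / a) = a * m + η := by field_simp
      rw [this]
      linarith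
    · have : a * (m + η / a) = a * m + η := by field_simp
      rw [this]
      linarith
  have hlam0 : 0 < lam := hm0.trans hlam1
  set κ := a * lam with hκ
  have hκ0 : 0 < κ := by positivity
  -- the exponent `σ`
  obtain ⟨σ, hσ1, hσ2⟩ : ∃ σ : ℝ, M < σ ∧ σ + κ ≤ 1 := ⟨1 - κ, by linarith, by linarith⟩
  have ht1 : t < 1 := by linarith
  have hη : 0 < σ - M := by linarith
  -- the eventual conditions
  have E1 := ev_pi hlam0 hlam1 2
  have E2 := ev_rpow (show γ < σ by linarith) 4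
  have E3 := ev_log (η := σ - t) (by linarith) 8 160 (by norm_num)
  have E4 := ev_rpow (show t < 1 from ht1) 4
  have E5 := ev_rpow (show t < 1 from ht1) (4 * κ / (ε - κ))
  have E6 : ∀ᶠ N : ℕ in atTop, 2 / (ε - κ) ≤ (N : ℝ) :=
    tendsto_natCast_atTop_atTop.eventually_ge_atTop _
  have E7 : ∀ᶠ N : ℕ in atTop, 8 ≤ N := eventually_ge_atTop 8
  obtain ⟨N0, hN0⟩ := eventually_atTop.1 (E1.and (E2.and (E3.and (E4.and (E5.and (E6.and E7))))))
  refine ⟨N0, fun N k hN hk c d hc hne => ?_⟩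
  obtain ⟨e1, e2, e3, e4, e5, e6, e7⟩ := hN0 N hN
  have hNR : (8 : ℝ) ≤ N := by exact_mod_cast e7
  have hNpos : (0 : ℝ) < N := by linarith
  rw [Real.rpow_one] at e4 e5
  set X : ℝ := (N : ℝ) ^ t with hX
  have hX0 : 0 ≤ X := Real.rpow_nonneg (Nat.cast_nonneg _) _
  set w := ⌊X⌋₊ with hw
  have hwX : (w : ℝ) ≤ X := Nat.floor_le hX0
  have hw4 : 4 * w ≤ N := by
    have : (4 : ℝ) * w ≤ N := by linarith
    exact_mod_cast this
  have haN : N ≤ a * N := Nat.le_mul_of_pos_left _ ha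
  have hbN : N ≤ b * N := Nat.le_mul_of_pos_left _ hb
  have hk' := (near_iff (x := k) (A := (a + b) * N) hX0 (by rw [← hw, add_mul]; omega)).1 (by
    push_cast
    exact hk)
  rw [← hw, add_mul] at hk'
  obtain ⟨hk1, hk2⟩ := hk'
  have hwin : win k a N t = Icc (a * N - w) (a * N + w) := by
    ext p
    unfold win
    rw [mem_filter, mem_range, mem_Icc]
    have h3 := near_iff (x := p) (A := a * N) hX0 (by rw [← hw]; omega)
    rw [← hw] at h3
    push_cast at h3
    rw [← hX, h3]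
    constructor
    · rintro ⟨-, h⟩
      exact h
    · rintro h
      exact ⟨by omega, h⟩
  rw [hwin] at hc hne ⊢
  rw [win_eq (by omega) (by omega) c]
  set p0 := a * N - w with hp0
  set q := k - p0 with hq
  have hW : a * N + w - p0 = 2 * w := by omega
  rw [hW]
  have hk3 : k = p0 + q := by omega
  have hq1 : b * N ≤ q := by omega
  have hq2 : q ≤ b * N + 2 * w := by omega
  set B : ℝ := Real.exp ((N : ℝ) ^ γ) with hB
  have hc' : ∀ i ≤ 2 * w, |(c (p0 + i) : ℝ)| ≤ B := by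
    intro i hi
    refine hc (p0 + i) ?_
    rw [mem_Icc]
    omega
  have hbig : (1 : ℝ) + κ * (N + 2 * w) ≤ ε * N := by
    have h3 : 0 < ε - κ := by linarith
    rw [div_le_iff₀ h3] at e6
    have h4 : 4 * κ * X ≤ (ε - κ) * N := by
      rw [div_mul_eq_mul_div, div_le_iff₀ h3] at e5
      linarith
    have h5 : κ * (2 * w) ≤ κ * (2 * X) := by gcongr
    linarith
  -- the numerical condition
  have hnum : ∀ G : ℕ, (G : ℝ) ≤ (N : ℝ) ^ κ → ∀ g : ℕ, 1 ≤ g → g ≤ G →
      6 * B * (((2 * w : ℕ) : ℝ) + 1) * ((g : ℝ) + 1) ^ 3 * (g : ℝ) ^ (N + 2 * w) ≤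
        ((g : ℝ) + 1) ^ (N - 2 * w) := by
    intro G hG g hg1 hgG
    refine num (t := t) (γ := γ) (σ := σ) (κ := κ) (by omega) hwX (by omega) hG (by linarith)
      (by linarith) ?_ ?_ ht.le g hg1 hgG
    · have h3 : (N : ℝ) ^ σ = (N : ℝ) ^ t * (N : ℝ) ^ (σ - t) := by
        rw [← Real.rpow_add hNpos]
        congr 1
        ring
      rw [h3]
      have h4 : (0 : ℝ) ≤ (N : ℝ) ^ t := hX0
      have h5 : (N : ℝ) ^ t * (160 * Real.log (8 * N)) ≤ (N : ℝ) ^ t * (N : ℝ) ^ (σ - t) := by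
        gcongr
      linarith
    · calc (N : ℝ) ^ (σ + κ) ≤ (N : ℝ) ^ (1 : ℝ) :=
            Real.rpow_le_rpow_of_exponent_le (by linarith) hσ2
        _ = N := Real.rpow_one _
  have hNκ : (1 : ℝ) ≤ (N : ℝ) ^ κ := Real.one_le_rpow (by linarith) hκ0.le
  by_cases hd : d = 0
  · -- the prime number
    obtain ⟨l, hl, hlx, hlne⟩ : ∃ l : ℕ, l.Prime ∧ l ≤ ⌊(N : ℝ) ^ lam⌋₊ ∧
        pv (2 * w) (fun i => c (p0 + i)) ((1 : ℝ) / l) ≠ 0 := by
      by_contra hcon
      push Not at hcon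
      have hne' : ∃ i ≤ 2 * w, c (p0 + i) ≠ 0 := by
        rcases hne with h | ⟨p, hp, hcp⟩
        · exact absurd hd h
        · rw [mem_Icc] at hp
          refine ⟨p - p0, by omega, ?_⟩
          have : p0 + (p - p0) = p := by omega
          rw [this]
          exact hcp
      obtain ⟨f1, f2⟩ := few_primes (c := fun i => c (p0 + i)) hc' hne' hcon
      set Pr := Nat.primeCounting ⌊(N : ℝ) ^ lam⌋₊ with hPr
      have g1 : (Pr : ℝ) ≤ 2 * X := by
        have : (Pr : ℝ) ≤ ((2 * w : ℕ) : ℝ) := by exact_mod_cast f1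
        push_cast at this
        linarith
      have g2 : (Pr : ℝ) ≤ 2 * (N : ℝ) ^ γ := by
        have h3 := Real.log_le_log (by positivity) f2
        rw [Real.log_pow, hB, Real.log_exp] at h3
        have h4 := Real.log_two_gt_d9
        have h5 : (0 : ℝ) ≤ Pr := Nat.cast_nonneg _
        nlinarith
      rcases min_choice t γ with h | h
      · rw [hm, h] at e1
        linarith
      · rw [hm, h] at e1
        linarith
    have hlR : (l : ℝ) ≤ (N : ℝ) ^ lam := by
      have h3 : (l : ℝ) ≤ (⌊(N : ℝ) ^ lam⌋₊ : ℝ) := by exact_mod_cast hlx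
      exact h3.trans (Nat.floor_le (Real.rpow_nonneg (Nat.cast_nonneg _) _))
    have hl0 : (0 : ℝ) < l := by exact_mod_cast hl.pos
    have hla : (l : ℝ) ^ a ≤ (N : ℝ) ^ κ := by
      calc (l : ℝ) ^ a ≤ ((N : ℝ) ^ lam) ^ a := by gcongr
        _ = (N : ℝ) ^ κ := by
            rw [← Real.rpow_natCast, ← Real.rpow_mul (Nat.cast_nonneg _), hκ, mul_comm]
    have ha2 : 2 * w ≤ a * (2 * w) := Nat.le_mul_of_pos_left _ ha
    have hb2 : 2 * w ≤ b * (2 * w) := Nat.le_mul_of_pos_left _ hb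
    have key := rat_core (a := a) (b := b) (p := p0) (q := q) (W := 2 * w) (N := N) (E := 2 * w)
      ha hb (by omega) (by omega) (by omega) (by rw [mul_add]; omega)
      (by rw [mul_add]; omega)
      (by rw [Nat.mul_sub]; omega)
      (by rw [Nat.mul_sub]; omega) hc' hl hlne
      (hnum (l ^ a) (by push_cast; exact hla))
    rw [hd, Int.cast_zero, zero_mul, add_zero]
    refine lt_of_lt_of_le ?_ key
    rw [Real.rpow_neg (Nat.cast_nonneg _), ← one_div]
    apply one_div_lt_one_div_of_lt (by positivity)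
    have h3 : ((l : ℝ) ^ a) ^ (N + 2 * w) ≤ (N : ℝ) ^ (κ * (N + 2 * w)) := by
      calc ((l : ℝ) ^ a) ^ (N + 2 * w) ≤ ((N : ℝ) ^ κ) ^ (N + 2 * w) := by gcongr
        _ = _ := by
            rw [← Real.rpow_natCast, ← Real.rpow_mul (Nat.cast_nonneg _)]
            push_cast
            rfl
    calc 2 * ((l : ℝ) ^ a) ^ (N + 2 * w) ≤ 2 * (N : ℝ) ^ (κ * (N + 2 * w)) := by gcongr
      _ < N * (N : ℝ) ^ (κ * (N + 2 * w)) := by
          apply mul_lt_mul_of_pos_right (by linarith) (Real.rpow_pos_of_pos hNpos _)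
      _ = (N : ℝ) ^ (1 + κ * (N + 2 * w)) := by
          rw [Real.rpow_add hNpos, Real.rpow_one]
      _ ≤ (N : ℝ) ^ (ε * N) := Real.rpow_le_rpow_of_exponent_le (by linarith) hbig
  · have hser := ser (p := p0) (q := q) (W := 2 * w) (by omega) (by omega) hc' 1
    have hT : ∑ x ∈ TT 1, tm p0 q (2 * w) (fun i => c (p0 + i)) x = 0 := by
      apply sum_eq_zero
      intro x hx
      rw [mem_TT] at hx
      omega
    rw [hT, sub_zero] at hser
    have h3 := hnum 1 (by push_cast; exact hNκ) 1 le_rfl le_rfl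
    have h4 : 2 * B * (((2 * w : ℕ) : ℝ) + 1) * ((((1 : ℕ) : ℝ) + 1) ^ 3 /
        (((1 : ℕ) : ℝ) + 1) ^ p0) ≤ 1 / 3 := by
      have g1 : (((1 : ℕ) : ℝ) + 1) = 2 := by norm_num
      rw [g1] at h3 ⊢
      rw [Nat.cast_one, one_pow, mul_one] at h3
      rw [← mul_div_assoc, div_le_iff₀ (by positivity)]
      have g2 : (2 : ℝ) ^ (N - 2 * w) ≤ 2 ^ p0 := pow_le_pow_right₀ (by norm_num) (by omega)
      linarith
    set Λ := ∑ i ∈ range (2 * w + 1), (c (p0 + i) : ℝ) * dz (p0 + i) (q - i) with hΛ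
    have h5 : 1 ≤ |(d : ℝ) * zz k| := by
      have hz := zz_ge (k := k) (by omega)
      rw [abs_mul]
      have g1 : (1 : ℝ) ≤ |(d : ℝ)| := by exact_mod_cast Int.one_le_abs hd
      have g2 : (1 : ℝ) ≤ |zz k| := hz.trans (le_abs_self _)
      nlinarith
    have h6 : |(d : ℝ) * zz k| ≤ |Λ + (d : ℝ) * zz k| + |Λ| := by
      have g1 : (d : ℝ) * zz k = (Λ + (d : ℝ) * zz k) - Λ := by ring
      calc |(d : ℝ) * zz k| = |(Λ + (d : ℝ) * zz k) - Λ| := by rw [← g1]
        _ ≤ _ := abs_sub _ _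
    have h7 : (N : ℝ) ^ (-(ε * N)) ≤ 1 / 8 := by
      have g1 : (N : ℝ) ^ (-(ε * N)) ≤ (N : ℝ) ^ (-1 : ℝ) := by
        apply Real.rpow_le_rpow_of_exponent_le (by linarith)
        have : 0 ≤ κ * (N + 2 * w) := by positivity
        linarith
      rw [Real.rpow_neg_one] at g1
      refine g1.trans ?_
      rw [← one_div]
      exact one_div_le_one_div_of_le (by norm_num) hNR
    linarith

end Pool.Agent.D0H51.DZ
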